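import Pool.Agent.Lib.MP_90b327_co.AR.PermCount

/-!
From a positive density of good configurations `(V, W, R)` to almost all conjugates of a permutation.
-/

set_option autoImplicit false
set_option linter.unusedSectionVars false

namespace Pool.Agent.Lib.MP_90b327_co.AR

open Finset

/-- the set `V ∪ R` -/
def gam {N k l : ℕ} (v : Fin k ⊕ Fin k ⊕ Fin l → Fin N) : Finset (Fin N) :=
  univ.image (fun a => v (Sum.inl a)) ∪ univ.image (fun b => v (Sum.inr (Sum.inr b)))

/-- the set `W ∪ R` -/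
def gam' {N k l : ℕ} (v : Fin k ⊕ Fin k ⊕ Fin l → Fin N) : Finset (Fin N) :=
  univ.image (fun a => v (Sum.inr (Sum.inl a))) ∪ univ.image (fun b => v (Sum.inr (Sum.inr b)))

theorem card_gam {N k l : ℕ} (v : Fin k ⊕ Fin k ⊕ Fin l → Fin N) (hv : Function.Injective v) :
    (gam v).card = k + l := by
  rw [gam, Finset.card_union_of_disjoint]
  · rw [Finset.card_image_of_injective, Finset.card_image_of_injective, Finset.card_univ,
      Finset.card_univ, Fintype.card_fin, Fintype.card_fin]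
    · intro a b h
      have := hv h
      simpa using this
    · intro a b h
      have := hv h
      simpa using this
  · rw [Finset.disjoint_left]
    intro x hx hx'
    simp only [mem_image, mem_univ, true_and] at hx hx'
    obtain ⟨a, rfl⟩ := hx
    obtain ⟨b, hb⟩ := hx'
    have := hv hb
    simp at this

theorem gam'_sdiff {N k l : ℕ} (v : Fin k ⊕ Fin k ⊕ Fin l → Fin N) (hv : Function.Injective v) :
    (gam' v \ gam v).card = k := by
  have h : gam' v \ gam v = univ.image (fun a => v (Sum.inr (Sum.inl a))) := by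
    ext x
    simp only [gam, gam', mem_sdiff, mem_union, mem_image, mem_univ, true_and, not_or, not_exists]
    constructor
    · rintro ⟨h1 | h1, h2, h3⟩
      · exact h1
      · obtain ⟨b, rfl⟩ := h1
        exact absurd rfl (h3 b)
    · rintro ⟨a, rfl⟩
      refine ⟨Or.inl ⟨a, rfl⟩, ?_, ?_⟩
      · intro b hb
        have := hv hb
        simp at this
      · intro b hb
        have := hv hb
        simp at this
  rw [h, Finset.card_image_of_injective, Finset.card_univ, Fintype.card_fin]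
  intro a b hab
  have := hv hab
  simpa using this

theorem image_gam {N k l : ℕ} (v : Fin k ⊕ Fin k ⊕ Fin l → Fin N) (ρ : Equiv.Perm (Fin N))
    (h1 : ∀ a, ρ (v (Sum.inl a)) = v (Sum.inr (Sum.inl a)))
    (h2 : ∀ b, ρ (v (Sum.inr (Sum.inr b))) = v (Sum.inr (Sum.inr b))) :
    (gam v).image ρ = gam' v := by
  rw [gam, gam', Finset.image_union, Finset.image_image, Finset.image_image]
  congr 1
  · congr 1
    funext a
    exact h1 a
  · congr 1
    funext b
    exact h2 b

theorem moved_gam {N k l : ℕ} (v : Fin k ⊕ Fin k ⊕ Fin l → Fin N) (hv : Function.Injective v)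
    (ρ : Equiv.Perm (Fin N))
    (h1 : ∀ a, ρ (v (Sum.inl a)) = v (Sum.inr (Sum.inl a)))
    (h2 : ∀ b, ρ (v (Sum.inr (Sum.inr b))) = v (Sum.inr (Sum.inr b))) :
    ((gam v).filter (fun x => ρ x ≠ x)).card = k := by
  have h : (gam v).filter (fun x => ρ x ≠ x) = univ.image (fun a => v (Sum.inl a)) := by
    ext x
    simp only [gam, mem_filter, mem_union, mem_image, mem_univ, true_and]
    constructor
    · rintro ⟨h3 | ⟨b, rfl⟩, h4⟩
      · exact h3
      · exact absurd (h2 b) h4
    · rintro ⟨a, rfl⟩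
      refine ⟨Or.inl ⟨a, rfl⟩, ?_⟩
      rw [h1]
      intro h5
      have := hv h5
      simp at this
  rw [h, Finset.card_image_of_injective, Finset.card_univ, Fintype.card_fin]
  intro a b hab
  have := hv hab
  simpa using this

/-- The ending: `F γ γ'` is any property of pairs of sets. -/
theorem ending {N : ℕ} (F : Finset (Fin N) → Finset (Fin N) → Prop) [∀ g G, Decidable (F g G)]
    (k l T : ℕ) (c a : ℝ) (hc : 0 < c) (hc1 : c ≤ 1)
    (hG : c * (N : ℝ) ^ (k + (k + l)) ≤ ((univ.filter (fun v : Fin k ⊕ Fin k ⊕ Fin l → Fin N =>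
      Function.Injective v ∧ F (gam v) (gam' v))).card : ℝ))
    (π : Equiv.Perm (Fin N)) (p : Fin T × (Fin k ⊕ Fin k ⊕ Fin l) ↪ Fin N)
    (hp1 : ∀ j b, π (p (j, Sum.inl b)) = p (j, Sum.inr (Sum.inl b)))
    (hp2 : ∀ j b, π (p (j, Sum.inr (Sum.inr b))) = p (j, Sum.inr (Sum.inr b)))
    (ha : (T * (k + (k + l)) : ℝ) ≤ a * N) (ha0 : 0 ≤ a) (hac : a * (k + (k + l)) ≤ c / 2) :
    ((univ.filter (fun σ : Equiv.Perm (Fin N) => ¬ ∃ γ : Finset (Fin N), γ.card = k + l ∧
      (γ.filter (fun x => (σ * π * σ⁻¹) x ≠ x)).card = k ∧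
      (γ.image (σ * π * σ⁻¹) \ γ).card = k ∧ F γ (γ.image (σ * π * σ⁻¹)))).card : ℝ) ≤
      (1 - c / 2) ^ T * N.factorial := by
  classical
  have hcard : Fintype.card (Fin k ⊕ Fin k ⊕ Fin l) = k + (k + l) := by simp
  have key := perm_count T N (univ.filter (fun v : Fin k ⊕ Fin k ⊕ Fin l → Fin N =>
      Function.Injective v ∧ F (gam v) (gam' v))) p c a hc hc1
      (by rw [hcard]; exact hG) (by rw [hcard]; push_cast; exact ha) ha0
      (by rw [hcard]; push_cast; exact hac)
  refine le_trans ?_ key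
  have : (univ.filter (fun σ : Equiv.Perm (Fin N) => ¬ ∃ γ : Finset (Fin N), γ.card = k + l ∧
      (γ.filter (fun x => (σ * π * σ⁻¹) x ≠ x)).card = k ∧
      (γ.image (σ * π * σ⁻¹) \ γ).card = k ∧ F γ (γ.image (σ * π * σ⁻¹)))) ⊆
      (univ.filter (fun σ : Equiv.Perm (Fin N) =>
      ∀ j, (fun b => σ (p (j, b))) ∉ (univ.filter (fun v : Fin k ⊕ Fin k ⊕ Fin l → Fin N =>
      Function.Injective v ∧ F (gam v) (gam' v))))) := by
    intro σ hσ
    simp only [mem_filter, mem_univ, true_and] at hσ ⊢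
    intro j hj
    apply hσ
    obtain ⟨hinj, hF⟩ := hj
    set v : Fin k ⊕ Fin k ⊕ Fin l → Fin N := fun b => σ (p (j, b)) with hv
    have e1 : ∀ b, (σ * π * σ⁻¹) (v (Sum.inl b)) = v (Sum.inr (Sum.inl b)) := by
      intro b
      have h0 : σ⁻¹ (σ (p (j, Sum.inl b))) = p (j, Sum.inl b) := by simp
      simp only [hv, Equiv.Perm.mul_apply, h0, hp1]
    have e2 : ∀ b, (σ * π * σ⁻¹) (v (Sum.inr (Sum.inr b))) = v (Sum.inr (Sum.inr b)) := by
      intro b
      have h0 : σ⁻¹ (σ (p (j, Sum.inr (Sum.inr b)))) = p (j, Sum.inr (Sum.inr b)) := by simp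
      simp only [hv, Equiv.Perm.mul_apply, h0, hp2]
    refine ⟨gam v, card_gam v hinj, moved_gam v hinj _ e1 e2, ?_, ?_⟩
    · rw [image_gam v _ e1 e2]
      exact gam'_sdiff v hinj
    · rw [image_gam v _ e1 e2]
      exact hF
  exact_mod_cast Finset.card_le_card this

/-- The choice of the number of groups. -/
theorem ending2 {N : ℕ} (F : Finset (Fin N) → Finset (Fin N) → Prop) [∀ g G, Decidable (F g G)]
    (k l L m : ℕ) (hL : 1 ≤ L) (hkl : k + l ≤ L) (c : ℝ) (hc : 0 < c) (hc1 : c ≤ 1)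
    (hG : c * (N : ℝ) ^ (k + (k + l)) ≤ ((univ.filter (fun v : Fin k ⊕ Fin k ⊕ Fin l → Fin N =>
      Function.Injective v ∧ F (gam v) (gam' v))).card : ℝ))
    (π : Equiv.Perm (Fin N)) (hm : m ≤ π.support.card) (hm2 : l = 0 ∨ m ≤ N - π.support.card)
    (hp : ∀ T : ℕ, 3 * (T * k) ≤ π.support.card → T * l ≤ N - π.support.card →
      ∃ p : Fin T × (Fin k ⊕ Fin k ⊕ Fin l) ↪ Fin N,
        (∀ j b, π (p (j, Sum.inl b)) = p (j, Sum.inr (Sum.inl b))) ∧
        (∀ j b, π (p (j, Sum.inr (Sum.inr b))) = p (j, Sum.inr (Sum.inr b)))) :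
    ((univ.filter (fun σ : Equiv.Perm (Fin N) => ¬ ∃ γ : Finset (Fin N), γ.card = k + l ∧
      (γ.filter (fun x => (σ * π * σ⁻¹) x ≠ x)).card = k ∧
      (γ.image (σ * π * σ⁻¹) \ γ).card = k ∧ F γ (γ.image (σ * π * σ⁻¹)))).card : ℝ) ≤
      2 * Real.exp (-(c ^ 2 / (16 * L ^ 2)) * m) * N.factorial := by
  have hLr : (1 : ℝ) ≤ L := by exact_mod_cast hL
  have hL2 : (1 : ℝ) ≤ (L : ℝ) ^ 2 := one_le_pow₀ hLr
  have hsup : π.support.card ≤ N := by
    have := Finset.card_le_univ π.support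
    rwa [Fintype.card_fin] at this
  set T := ⌊c / (8 * (L : ℝ) ^ 2) * m⌋₊ with hT
  have hm0 : (0 : ℝ) ≤ m := Nat.cast_nonneg _
  have hTle : (T : ℝ) ≤ c / (8 * (L : ℝ) ^ 2) * m := Nat.floor_le (by positivity)
  have hTge : c / (8 * (L : ℝ) ^ 2) * m - 1 ≤ T := (Nat.sub_one_lt_floor _).le
  have hk : (k : ℝ) ≤ L := by
    have : k ≤ L := by omega
    exact_mod_cast this
  have hl : (l : ℝ) ≤ L := by
    have : l ≤ L := by omega
    exact_mod_cast this
  have hkl' : (k : ℝ) + (k + l) ≤ 2 * L := by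
    have : k + (k + l) ≤ 2 * L := by omega
    exact_mod_cast this
  have hTL : (T : ℝ) * L ≤ c / (8 * L) * m := by
    calc (T : ℝ) * L ≤ (c / (8 * (L : ℝ) ^ 2) * m) * L :=
          mul_le_mul_of_nonneg_right hTle (by linarith)
      _ = c / (8 * L) * m := by field_simp
  have hcL : c / (8 * L) ≤ 1 / 8 := by
    rw [div_le_div_iff₀ (by positivity) (by norm_num)]
    nlinarith
  have h8 : (T : ℝ) * L ≤ m / 8 := by
    refine hTL.trans ?_
    calc c / (8 * (L : ℝ)) * m ≤ 1 / 8 * m := mul_le_mul_of_nonneg_right hcL hm0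
      _ = _ := by ring
  have h3 : 3 * (T * k) ≤ π.support.card := by
    have : (3 : ℝ) * (T * k) ≤ m := by
      have : (T : ℝ) * k ≤ T * L := mul_le_mul_of_nonneg_left hk (Nat.cast_nonneg _)
      linarith
    have : 3 * (T * k) ≤ m := by exact_mod_cast this
    omega
  have h4 : T * l ≤ N - π.support.card := by
    rcases hm2 with h0 | h0
    · rw [h0]; simp
    · have : (T : ℝ) * l ≤ m := by
        have : (T : ℝ) * l ≤ T * L := mul_le_mul_of_nonneg_left hl (Nat.cast_nonneg _)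
        linarith
      have : T * l ≤ m := by exact_mod_cast this
      omega
  obtain ⟨p, hp1, hp2⟩ := hp T h3 h4
  have hmN : (m : ℝ) ≤ N := by
    have : m ≤ N := by omega
    exact_mod_cast this
  have key := ending F k l T c (c / (4 * L)) hc hc1 hG π p hp1 hp2 (by
      calc (T : ℝ) * (k + (k + l)) ≤ T * (2 * L) :=
            mul_le_mul_of_nonneg_left hkl' (Nat.cast_nonneg _)
        _ = 2 * (T * L) := by ring
        _ ≤ 2 * (c / (8 * L) * m) := by linarith
        _ = c / (4 * L) * m := by ring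
        _ ≤ c / (4 * L) * N := mul_le_mul_of_nonneg_left hmN (by positivity)) (by positivity) (by
      calc c / (4 * (L : ℝ)) * (k + (k + l)) ≤ c / (4 * L) * (2 * L) :=
            mul_le_mul_of_nonneg_left hkl' (by positivity)
        _ = c / 2 := by field_simp; norm_num)
  refine key.trans ?_
  have hfac : (0 : ℝ) ≤ N.factorial := Nat.cast_nonneg _
  apply mul_le_mul_of_nonneg_right _ hfac
  have e1 : (1 - c / 2) ≤ Real.exp (-(c / 2)) := by
    have := Real.add_one_le_exp (-(c / 2))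
    linarith
  calc (1 - c / 2) ^ T ≤ (Real.exp (-(c / 2))) ^ T := pow_le_pow_left₀ (by linarith) e1 T
    _ = Real.exp (-(c / 2) * T) := by rw [← Real.exp_nat_mul]; ring_nf
    _ ≤ Real.exp (c / 2 + -(c ^ 2 / (16 * L ^ 2)) * m) := by
        apply Real.exp_le_exp.mpr
        have : c / 2 * (c / (8 * (L : ℝ) ^ 2) * m - 1) ≤ c / 2 * T :=
          mul_le_mul_of_nonneg_left hTge (by linarith)
        have e2 : c / 2 * (c / (8 * (L : ℝ) ^ 2) * m - 1) = c ^ 2 / (16 * (L : ℝ) ^ 2) * m - c / 2 := by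
          field_simp
          ring
        linarith
    _ = Real.exp (c / 2) * Real.exp (-(c ^ 2 / (16 * L ^ 2)) * m) := Real.exp_add _ _
    _ ≤ 2 * Real.exp (-(c ^ 2 / (16 * L ^ 2)) * m) := by
        apply mul_le_mul_of_nonneg_right _ (Real.exp_pos _).le
        have h5 : Real.exp (c / 2) ≤ Real.exp (1 / 2) := Real.exp_le_exp.mpr (by linarith)
        have h6 : Real.exp (1 / 2) ≤ 2 := by
          have h7 : Real.exp (1 / 2) ^ 2 = Real.exp 1 := by
            rw [← Real.exp_nat_mul]; norm_num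
          have h8 := Real.exp_one_lt_d9
          nlinarith [Real.exp_pos (1 / 2)]
        linarith

end Pool.Agent.Lib.MP_90b327_co.AR
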