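import Pool.Agent.Lib.MP_90b327_co.AR.PermCount

/-!
If every injection of a finite set of labels into `[N]` contains a good configuration, then one kind of good
configurations has positive density.
-/

set_option autoImplicit false
set_option linter.unusedSectionVars false

namespace Pool.Agent.Lib.MP_90b327_co.AR

open Finset

/-- half of the functions are injective -/
theorem card_embedding_half {Λ : Type} [Fintype Λ] [DecidableEq Λ] (N : ℕ)
    (hN : 2 * Fintype.card Λ ^ 2 ≤ N) :
    (N : ℝ) ^ Fintype.card Λ ≤ 2 * (Fintype.card (Λ ↪ Fin N) : ℝ) := by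
  set n := Fintype.card Λ with hn
  have hnN : n ≤ N := by nlinarith
  have h1 := card_embedding_ge (ι := Λ) N hnN
  rw [← hn] at h1
  have h2 : ((N - n : ℕ) : ℝ) ^ n ≤ (Fintype.card (Λ ↪ Fin N) : ℝ) := by exact_mod_cast h1
  rw [Nat.cast_sub hnN] at h2
  rcases Nat.eq_zero_or_pos N with h0 | h0
  · subst h0
    have : n = 0 := by omega
    rw [this] at h2 ⊢
    simp only [pow_zero] at h2 ⊢
    linarith
  · have hNr : (0 : ℝ) < N := by exact_mod_cast h0
    have hNn : (2 : ℝ) * (n : ℝ) ^ 2 ≤ N := by exact_mod_cast hN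
    have hnN' : (n : ℝ) ≤ N := by exact_mod_cast hnN
    have h3 : (1 : ℝ) / 2 ≤ (1 - (n : ℝ) / N) ^ n := by
      have h4 := one_add_mul_le_pow (a := -((n : ℝ) / N)) (by
        have : (n : ℝ) / N ≤ 1 := by
          rw [div_le_one hNr]; exact hnN'
        linarith) n
      have h5 : (n : ℝ) * ((n : ℝ) / N) ≤ 1 / 2 := by
        rw [mul_div_assoc', div_le_iff₀ hNr]
        nlinarith
      calc (1 : ℝ) / 2 ≤ 1 + (n : ℝ) * -((n : ℝ) / N) := by linarith
        _ ≤ (1 + -((n : ℝ) / N)) ^ n := h4
        _ = _ := by ring_nf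
    have h6 : ((N : ℝ) - n) ^ n = (1 - (n : ℝ) / N) ^ n * (N : ℝ) ^ n := by
      rw [← mul_pow]
      congr 1
      field_simp
    rw [h6] at h2
    have h7 : (0 : ℝ) < (N : ℝ) ^ n := by positivity
    nlinarith

theorem push {Λ J : Type} [Fintype Λ] [DecidableEq Λ] [Fintype J] (κ : J → Type)
    [∀ j, Fintype (κ j)] [∀ j, DecidableEq (κ j)] (e : ∀ j, κ j ↪ Λ) (N : ℕ)
    (hN : 2 * Fintype.card Λ ^ 2 ≤ N) (P : ∀ j, (κ j → Fin N) → Prop)
    [∀ j, DecidablePred (P j)]
    (h : ∀ u : Λ ↪ Fin N, ∃ j, P j (fun a => u (e j a))) :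
    ∃ j, (N : ℝ) ^ Fintype.card (κ j) ≤ 2 * Fintype.card J *
      ((univ.filter (fun v : κ j → Fin N => Function.Injective v ∧ P j v)).card : ℝ) := by
  classical
  by_contra hcon
  push Not at hcon
  have hhalf := card_embedding_half (Λ := Λ) N hN
  have hle : Fintype.card Λ ≤ N := by nlinarith
  set G : ∀ j, Finset (κ j → Fin N) := fun j =>
    univ.filter (fun v : κ j → Fin N => Function.Injective v ∧ P j v) with hG
  set E : J → Finset (Λ ↪ Fin N) := fun j =>
    univ.filter (fun u => P j (fun a => u (e j a))) with hE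
  have h1 : (Fintype.card (Λ ↪ Fin N)) ≤ ∑ j, (E j).card := by
    rw [← Finset.card_univ]
    refine le_trans (Finset.card_le_card ?_) (Finset.card_biUnion_le (s := univ) (t := E))
    intro u _
    obtain ⟨j, hj⟩ := h u
    simp only [mem_biUnion, mem_univ, true_and, hE, mem_filter]
    exact ⟨j, hj⟩
  -- the fibres
  have h2 : ∀ j, (E j).card ≤ (G j).card * N ^ (Fintype.card Λ - Fintype.card (κ j)) := by
    intro j
    have h3 : (E j).card ≤ ((G j) ×ˢ
        (univ : Finset ({x : Λ // x ∉ Set.range (e j)} → Fin N))).card := by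
      apply Finset.card_le_card_of_injOn (fun u => (fun a => u (e j a), fun x => u x.1))
      · intro u hu
        have hu' : u ∈ E j := hu
        simp only [hE, mem_filter, mem_univ, true_and] at hu'
        simp only [coe_product, coe_univ, Set.mem_prod, Set.mem_univ, and_true, mem_coe, hG,
          mem_filter, mem_univ, true_and]
        exact ⟨u.injective.comp (e j).injective, hu'⟩
      · intro u _ v _ huv
        simp only [Prod.mk.injEq] at huv
        ext x
        by_cases hx : x ∈ Set.range (e j)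
        · obtain ⟨a, rfl⟩ := hx
          exact congrArg Fin.val (congrFun huv.1 a)
        · exact congrArg Fin.val (congrFun huv.2 ⟨x, hx⟩)
    refine h3.trans (le_of_eq ?_)
    rw [card_product, Finset.card_univ, Fintype.card_fun, Fintype.card_fin]
    congr 2
    have h4 : Fintype.card {x : Λ // x ∉ Set.range (e j)} =
        Fintype.card Λ - Fintype.card {x : Λ // x ∈ Set.range (e j)} :=
      Fintype.card_subtype_compl _
    rw [h4]
    congr 1
    exact (Fintype.card_congr (Equiv.ofInjective (e j) (e j).injective)).symm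
  -- positivity
  have hJ : Nonempty J := by
    by_contra hne
    rw [not_nonempty_iff] at hne
    have hpos : 0 < Fintype.card (Λ ↪ Fin N) := by
      have : 0 < (N : ℝ) ^ Fintype.card Λ := by
        rcases Nat.eq_zero_or_pos N with h0 | h0
        · have : Fintype.card Λ = 0 := by omega
          rw [this, pow_zero]; exact one_pos
        · have : (0 : ℝ) < N := by exact_mod_cast h0
          positivity
      have : (0 : ℝ) < (Fintype.card (Λ ↪ Fin N) : ℝ) := by linarith
      exact_mod_cast this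
    rw [Finset.univ_eq_empty, Finset.sum_empty] at h1
    omega
  have hJc : (0 : ℝ) < Fintype.card J := by exact_mod_cast Fintype.card_pos
  have hpow : ∀ j, (N : ℝ) ^ Fintype.card (κ j) *
      (N : ℝ) ^ (Fintype.card Λ - Fintype.card (κ j)) = (N : ℝ) ^ Fintype.card Λ := by
    intro j
    rw [← pow_add]
    congr 1
    have := Fintype.card_le_of_embedding (e j)
    omega
  have hNpow : ∀ n, n ≤ Fintype.card Λ → (0 : ℝ) < (N : ℝ) ^ n := by
    intro n hn
    rcases Nat.eq_zero_or_pos N with h0 | h0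
    · have : n = 0 := by omega
      rw [this, pow_zero]; exact one_pos
    · have : (0 : ℝ) < N := by exact_mod_cast h0
      positivity
  have h5 : ∀ j, 2 * (Fintype.card J : ℝ) * ((E j).card : ℝ) < (N : ℝ) ^ Fintype.card Λ := by
    intro j
    have h6 : ((E j).card : ℝ) ≤
        ((G j).card : ℝ) * (N : ℝ) ^ (Fintype.card Λ - Fintype.card (κ j)) := by
      exact_mod_cast h2 j
    have h7 := hcon j
    have h8 := hNpow (Fintype.card Λ - Fintype.card (κ j)) (Nat.sub_le _ _)
    calc 2 * (Fintype.card J : ℝ) * ((E j).card : ℝ) ≤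
          2 * (Fintype.card J : ℝ) * (((G j).card : ℝ) *
            (N : ℝ) ^ (Fintype.card Λ - Fintype.card (κ j))) :=
          mul_le_mul_of_nonneg_left h6 (by positivity)
      _ = (2 * (Fintype.card J : ℝ) * ((G j).card : ℝ)) *
            (N : ℝ) ^ (Fintype.card Λ - Fintype.card (κ j)) := by ring
      _ < (N : ℝ) ^ Fintype.card (κ j) *
            (N : ℝ) ^ (Fintype.card Λ - Fintype.card (κ j)) :=
          mul_lt_mul_of_pos_right h7 h8
      _ = _ := hpow j
  have h9 : ∑ j : J, 2 * (Fintype.card J : ℝ) * ((E j).card : ℝ) <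
      ∑ _j : J, (N : ℝ) ^ Fintype.card Λ :=
    Finset.sum_lt_sum_of_nonempty univ_nonempty fun j _ => h5 j
  rw [← Finset.mul_sum, Finset.sum_const, Finset.card_univ, nsmul_eq_mul] at h9
  have h10 : (Fintype.card (Λ ↪ Fin N) : ℝ) ≤ ∑ j, ((E j).card : ℝ) := by exact_mod_cast h1
  have h11 : 2 * (Fintype.card J : ℝ) * (Fintype.card (Λ ↪ Fin N) : ℝ) <
      (Fintype.card J : ℝ) * (N : ℝ) ^ Fintype.card Λ :=
    lt_of_le_of_lt (mul_le_mul_of_nonneg_left h10 (by positivity)) h9
  have h12 : (Fintype.card J : ℝ) * (N : ℝ) ^ Fintype.card Λ ≤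
      (Fintype.card J : ℝ) * (2 * (Fintype.card (Λ ↪ Fin N) : ℝ)) :=
    mul_le_mul_of_nonneg_left hhalf hJc.le
  linarith

end Pool.Agent.Lib.MP_90b327_co.AR
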