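import Pool.Agent.Lib.MP_90b327_co.AR.Window
import Pool.Agent.Lib.MP_90b327_co.AR.Push
import Pool.Agent.Lib.MP_90b327_co.AR.Ending

/-!
From a density theorem for boxes in `[N₁]^d` to almost all conjugates of a permutation of `[N]`.
-/

set_option autoImplicit false
set_option linter.unusedSectionVars false

namespace Pool.Agent.Lib.MP_90b327_co.AR

open Finset

/-- the cells with `i`-th coordinate in `G` and all others in `g` -/
def box {d N : ℕ} (i : Fin d) (g G : Finset (Fin N)) : Finset (Fin d → Fin N) :=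
  Fintype.piFinset (Function.update (fun _ => g) i G)

/-- the members `A` of `S` disjoint from `B` with `A ∪ B` in `S` -/
def hits {d N : ℕ} (S : Finset (Finset (Fin d → Fin N))) (B : Finset (Fin d → Fin N)) :
    Finset (Finset (Fin d → Fin N)) :=
  S.filter (fun A => Disjoint A B ∧ A ∪ B ∈ S)

/-- the window of cells -/
def cellMap {d N₁ N : ℕ} (i : Fin d) (s t : Fin N₁ ↪ Fin N) :
    (Fin d → Fin N₁) ↪ (Fin d → Fin N) where
  toFun x j := if j = i then t (x j) else s (x j)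
  inj' x y h := by
    funext j
    have := congrFun h j
    simp only at this
    by_cases hj : j = i
    · rw [if_pos hj, if_pos hj] at this
      exact t.injective this
    · rw [if_neg hj, if_neg hj] at this
      exact s.injective this

theorem map_box {d N₁ N : ℕ} (i : Fin d) (s t : Fin N₁ ↪ Fin N) (g G : Finset (Fin N₁)) :
    (box i g G).map (cellMap i s t) = box i (g.map s) (G.map t) := by
  ext x
  simp only [box, mem_map, Fintype.mem_piFinset]
  constructor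
  · rintro ⟨y, hy, rfl⟩ j
    have h := hy j
    by_cases hj : j = i
    · subst hj
      rw [Function.update_self] at h ⊢
      simp only [mem_map]
      exact ⟨y j, h, (if_pos (rfl : j = j)).symm⟩
    · rw [Function.update_of_ne hj] at h ⊢
      simp only [mem_map]
      exact ⟨y j, h, (if_neg hj).symm⟩
  · intro h
    have h' : ∀ j, ∃ a : Fin N₁, a ∈ Function.update (fun _ => g) i G j ∧
        (if j = i then t a else s a) = x j := by
      intro j
      have hj' := h j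
      by_cases hj : j = i
      · subst hj
        rw [Function.update_self] at hj' ⊢
        simp only [mem_map] at hj'
        obtain ⟨a, ha, hax⟩ := hj'
        exact ⟨a, ha, by rw [if_pos rfl]; exact hax⟩
      · rw [Function.update_of_ne hj] at hj' ⊢
        simp only [mem_map] at hj'
        obtain ⟨a, ha, hax⟩ := hj'
        exact ⟨a, ha, by rw [if_neg hj]; exact hax⟩
    choose y hy1 hy2 using h'
    refine ⟨y, hy1, ?_⟩
    funext j
    exact hy2 j

theorem core {d : ℕ} (i : Fin d) {N₁ N : ℕ} {J Λ : Type} [Fintype J] [Fintype Λ] [DecidableEq Λ]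
    (g0 G0 : J → Finset (Fin N₁)) (δ : ℝ) (hδ : 0 < δ)
    (hbb : ∀ S0 : Finset (Finset (Fin d → Fin N₁)), δ / 2 * 2 ^ (N₁ ^ d) < (S0.card : ℝ) →
      ∃ j, ∃ X ∈ S0, Disjoint X (box i (g0 j) (G0 j)) ∧ X ∪ box i (g0 j) (G0 j) ∈ S0)
    (sL tL : Fin N₁ ↪ Λ) (k l : J → ℕ) (e : ∀ j, Fin (k j) ⊕ Fin (k j) ⊕ Fin (l j) ↪ Λ)
    (he1 : ∀ j, univ.image (fun a => e j (Sum.inl a)) ∪
      univ.image (fun b => e j (Sum.inr (Sum.inr b))) = (g0 j).map sL)
    (he2 : ∀ j, univ.image (fun a => e j (Sum.inr (Sum.inl a))) ∪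
      univ.image (fun b => e j (Sum.inr (Sum.inr b))) = (G0 j).map tL)
    (hN : 2 * Fintype.card Λ ^ 2 ≤ N) (S : Finset (Finset (Fin d → Fin N)))
    (hS : δ * 2 ^ (N ^ d) < (S.card : ℝ)) :
    ∃ j, (N : ℝ) ^ (k j + (k j + l j)) ≤ 2 * Fintype.card J *
      ((univ.filter (fun v : Fin (k j) ⊕ Fin (k j) ⊕ Fin (l j) → Fin N => Function.Injective v ∧
        δ / 2 * 2 ^ (N ^ d) ≤ 2 ^ (N₁ ^ d) * Fintype.card J *
          ((hits S (box i (gam v) (gam' v))).card : ℝ))).card : ℝ) := by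
  classical
  have hc1 : Fintype.card (Fin d → Fin N₁) = N₁ ^ d := by simp
  have hc : Fintype.card (Fin d → Fin N) = N ^ d := by simp
  obtain ⟨j, hj⟩ := push (fun j => Fin (k j) ⊕ Fin (k j) ⊕ Fin (l j)) e N hN
    (fun j v => δ / 2 * 2 ^ (N ^ d) ≤ 2 ^ (N₁ ^ d) * Fintype.card J *
          ((hits S (box i (gam v) (gam' v))).card : ℝ)) (by
      intro u
      obtain ⟨j, hj⟩ := window (cellMap i (sL.trans u) (tL.trans u)) S δ hδ (by rw [hc]; exact hS)
        (fun j => box i (g0 j) (G0 j)) (by rw [hc1]; exact hbb)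
      refine ⟨j, ?_⟩
      rw [hc, hc1] at hj
      refine hj.trans (le_of_eq ?_)
      rw [map_box]
      have e1 : gam (fun a => u (e j a)) = (g0 j).map (sL.trans u) := by
        rw [gam, ← Finset.map_map, ← he1 j, Finset.map_eq_image, Finset.image_union,
          Finset.image_image, Finset.image_image]
        rfl
      have e2 : gam' (fun a => u (e j a)) = (G0 j).map (tL.trans u) := by
        rw [gam', ← Finset.map_map, ← he2 j, Finset.map_eq_image, Finset.image_union,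
          Finset.image_image, Finset.image_image]
        rfl
      rw [e1, e2, hits])
  refine ⟨j, ?_⟩
  have hcard : Fintype.card (Fin (k j) ⊕ Fin (k j) ⊕ Fin (l j)) = k j + (k j + l j) := by simp
  rw [hcard] at hj
  exact hj

/-- the constant -/
noncomputable def cst (δ : ℝ) (W L n : ℕ) : ℝ :=
  min (δ / (2 * 2 ^ W * n)) ((1 / (2 * n)) ^ 2 / (16 * L ^ 2))

theorem cst_pos (δ : ℝ) (hδ : 0 < δ) (W L n : ℕ) (hL : 1 ≤ L) (hn : 0 < n) : 0 < cst δ W L n := by
  have : (0 : ℝ) < n := by exact_mod_cast hn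
  have : (0 : ℝ) < L := by exact_mod_cast hL
  unfold cst
  apply lt_min <;> positivity

theorem final {d : ℕ} (i : Fin d) {N₁ N : ℕ} {J Λ : Type} [Fintype J] [Fintype Λ] [DecidableEq Λ]
    (g0 G0 : J → Finset (Fin N₁)) (δ : ℝ) (hδ : 0 < δ)
    (hbb : ∀ S0 : Finset (Finset (Fin d → Fin N₁)), δ / 2 * 2 ^ (N₁ ^ d) < (S0.card : ℝ) →
      ∃ j, ∃ X ∈ S0, Disjoint X (box i (g0 j) (G0 j)) ∧ X ∪ box i (g0 j) (G0 j) ∈ S0)
    (sL tL : Fin N₁ ↪ Λ) (k l : J → ℕ) (e : ∀ j, Fin (k j) ⊕ Fin (k j) ⊕ Fin (l j) ↪ Λ)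
    (he1 : ∀ j, univ.image (fun a => e j (Sum.inl a)) ∪
      univ.image (fun b => e j (Sum.inr (Sum.inr b))) = (g0 j).map sL)
    (he2 : ∀ j, univ.image (fun a => e j (Sum.inr (Sum.inl a))) ∪
      univ.image (fun b => e j (Sum.inr (Sum.inr b))) = (G0 j).map tL)
    (hN : 2 * Fintype.card Λ ^ 2 ≤ N) (S : Finset (Finset (Fin d → Fin N)))
    (hS : δ * 2 ^ (N ^ d) < (S.card : ℝ))
    (L : ℕ) (hL : 1 ≤ L) (hkl : ∀ j, k j + l j ≤ L)
    (π : Equiv.Perm (Fin N)) (m : ℕ) (hm : m ≤ π.support.card)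
    (hm2 : (∀ j, l j = 0) ∨ m ≤ N - π.support.card)
    (hp : ∀ T k l : ℕ, 3 * (T * k) ≤ π.support.card → T * l ≤ N - π.support.card →
      ∃ p : Fin T × (Fin k ⊕ Fin k ⊕ Fin l) ↪ Fin N,
        (∀ j b, π (p (j, Sum.inl b)) = p (j, Sum.inr (Sum.inl b))) ∧
        (∀ j b, π (p (j, Sum.inr (Sum.inr b))) = p (j, Sum.inr (Sum.inr b)))) :
    ∃ j : J, ((univ.filter (fun σ : Equiv.Perm (Fin N) => ¬ ∃ γ : Finset (Fin N),
      γ.card = k j + l j ∧ (γ.filter (fun x => (σ * π * σ⁻¹) x ≠ x)).card = k j ∧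
      (γ.image (σ * π * σ⁻¹) \ γ).card = k j ∧
      cst δ (N₁ ^ d) L (Fintype.card J) * 2 ^ (N ^ d) ≤
        ((hits S (box i γ (γ.image (σ * π * σ⁻¹)))).card : ℝ))).card : ℝ) ≤
      2 * Real.exp (-cst δ (N₁ ^ d) L (Fintype.card J) * m) * N.factorial := by
  classical
  obtain ⟨j, hj⟩ := core i g0 G0 δ hδ hbb sL tL k l e he1 he2 hN S hS
  refine ⟨j, ?_⟩
  have hJ : 0 < Fintype.card J := Fintype.card_pos_iff.mpr ⟨j⟩
  have hJr : (0 : ℝ) < Fintype.card J := by exact_mod_cast hJ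
  have hJ1 : (1 : ℝ) ≤ Fintype.card J := by exact_mod_cast hJ
  have hLr : (0 : ℝ) < L := by exact_mod_cast hL
  set c : ℝ := 1 / (2 * Fintype.card J) with hc
  have hc0 : 0 < c := by positivity
  have hc1 : c ≤ 1 := by
    rw [hc, div_le_one (by positivity)]
    linarith
  have key := ending2 (N := N) (fun γ γ' => δ / 2 * 2 ^ (N ^ d) ≤ 2 ^ (N₁ ^ d) * Fintype.card J *
          ((hits S (box i γ γ')).card : ℝ)) (k j) (l j) L m hL (hkl j) c hc0 hc1 (by
      rw [hc, div_mul_eq_mul_div, one_mul, div_le_iff₀ (by positivity)]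
      calc _ ≤ _ := hj
        _ = _ := by ring) π hm (by
      rcases hm2 with h | h
      · exact Or.inl (h j)
      · exact Or.inr h) (fun T h1 h2 => hp T (k j) (l j) h1 h2)
  have hle : cst δ (N₁ ^ d) L (Fintype.card J) ≤ c ^ 2 / (16 * L ^ 2) := min_le_right _ _
  have hle1 : cst δ (N₁ ^ d) L (Fintype.card J) ≤
      δ / (2 * 2 ^ (N₁ ^ d) * Fintype.card J) := min_le_left _ _
  have hmono : (univ.filter (fun σ : Equiv.Perm (Fin N) => ¬ ∃ γ : Finset (Fin N),
      γ.card = k j + l j ∧ (γ.filter (fun x => (σ * π * σ⁻¹) x ≠ x)).card = k j ∧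
      (γ.image (σ * π * σ⁻¹) \ γ).card = k j ∧
      cst δ (N₁ ^ d) L (Fintype.card J) * 2 ^ (N ^ d) ≤
        ((hits S (box i γ (γ.image (σ * π * σ⁻¹)))).card : ℝ))) ⊆
      (univ.filter (fun σ : Equiv.Perm (Fin N) => ¬ ∃ γ : Finset (Fin N),
      γ.card = k j + l j ∧ (γ.filter (fun x => (σ * π * σ⁻¹) x ≠ x)).card = k j ∧
      (γ.image (σ * π * σ⁻¹) \ γ).card = k j ∧
      δ / 2 * 2 ^ (N ^ d) ≤ 2 ^ (N₁ ^ d) * Fintype.card J *
        ((hits S (box i γ (γ.image (σ * π * σ⁻¹)))).card : ℝ))) := by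
    intro σ hσ
    simp only [mem_filter, mem_univ, true_and] at hσ ⊢
    rintro ⟨γ, h1, h2, h3, h4⟩
    refine hσ ⟨γ, h1, h2, h3, ?_⟩
    have h5 : δ / (2 * 2 ^ (N₁ ^ d) * Fintype.card J) * 2 ^ (N ^ d) ≤
        ((hits S (box i γ (γ.image (σ * π * σ⁻¹)))).card : ℝ) := by
      rw [div_mul_eq_mul_div, div_le_iff₀ (by positivity)]
      linarith
    refine le_trans (mul_le_mul_of_nonneg_right hle1 (by positivity)) h5
  have h6 : ((univ.filter (fun σ : Equiv.Perm (Fin N) => ¬ ∃ γ : Finset (Fin N),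
      γ.card = k j + l j ∧ (γ.filter (fun x => (σ * π * σ⁻¹) x ≠ x)).card = k j ∧
      (γ.image (σ * π * σ⁻¹) \ γ).card = k j ∧
      cst δ (N₁ ^ d) L (Fintype.card J) * 2 ^ (N ^ d) ≤
        ((hits S (box i γ (γ.image (σ * π * σ⁻¹)))).card : ℝ))).card : ℝ) ≤
      2 * Real.exp (-(c ^ 2 / (16 * L ^ 2)) * m) * N.factorial := by
    refine le_trans ?_ key
    exact_mod_cast Finset.card_le_card hmono
  refine h6.trans ?_
  have hfac : (0 : ℝ) ≤ N.factorial := Nat.cast_nonneg _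
  apply mul_le_mul_of_nonneg_right _ hfac
  apply mul_le_mul_of_nonneg_left _ (by norm_num)
  apply Real.exp_le_exp.mpr
  have hm0 : (0 : ℝ) ≤ m := Nat.cast_nonneg _
  nlinarith

end Pool.Agent.Lib.MP_90b327_co.AR
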