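import Mathlib

/-!
# AR / Pairs: disjoint pairs `(v, π v)` and fixed points of a permutation

A maximal `V ⊆ supp π` with `V ∩ π V = ∅` satisfies `supp π ⊆ V ∪ π V ∪ π⁻¹ V`, so `3 |V| ≥ |supp π|`.
-/

set_option autoImplicit false

open Finset

namespace Pool.Agent.Lib.MP_90b327_co.AR

theorem exists_third {N : ℕ} (pi : Equiv.Perm (Fin N)) :
    ∃ V : Finset (Fin N), V ⊆ pi.support ∧ pi.support.card ≤ 3 * V.card ∧ Disjoint V (V.map pi.toEmbedding) := by
  classical
  let F : Finset (Finset (Fin N)) :=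
    pi.support.powerset.filter fun V => Disjoint V (V.map pi.toEmbedding)
  have hF : F.Nonempty := ⟨∅, by simp [F]⟩
  obtain ⟨V, hV, hmax⟩ := F.exists_max_image (fun V => V.card) hF
  rw [mem_filter, mem_powerset] at hV
  refine ⟨V, hV.1, ?_, hV.2⟩
  have hcov : pi.support ⊆ V ∪ (V.map pi.toEmbedding ∪ V.map pi.symm.toEmbedding) := by
    intro x hx
    by_contra hn
    simp only [mem_union, not_or] at hn
    obtain ⟨h1, h2, h3⟩ := hn
    have hxs : pi x ≠ x := Equiv.Perm.mem_support.mp hx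
    have h2' : ∀ y ∈ V, pi y ≠ x := fun y hy he => h2 (mem_map.mpr ⟨y, hy, he⟩)
    have h3' : pi x ∉ V := fun hy => h3 (mem_map.mpr ⟨pi x, hy, by simp⟩)
    have hmem : insert x V ∈ F := by
      rw [mem_filter, mem_powerset]
      refine ⟨insert_subset hx hV.1, ?_⟩
      rw [disjoint_left]
      intro y hy hy2
      rw [mem_map] at hy2
      obtain ⟨z, hz, hzy⟩ := hy2
      have hzy' : pi z = y := hzy
      rcases mem_insert.mp hy with rfl | hyV
      · rcases mem_insert.mp hz with rfl | hzV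
        · exact hxs hzy'
        · exact h2' z hzV hzy'
      · rcases mem_insert.mp hz with rfl | hzV
        · exact h3' (hzy' ▸ hyV)
        · exact (disjoint_left.mp hV.2) hyV (mem_map.mpr ⟨z, hzV, hzy'⟩)
    have := hmax _ hmem
    rw [card_insert_of_notMem h1] at this
    omega
  have h := (card_le_card hcov).trans (card_union_le _ _)
  have h' := card_union_le (V.map pi.toEmbedding) (V.map pi.symm.toEmbedding)
  rw [card_map, card_map] at h'
  omega

/-- groups of `k` pairs `(v, π v)` and `l` fixed points, all different -/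
theorem exists_groups {N : ℕ} (pi : Equiv.Perm (Fin N)) (T k l : ℕ) (h1 : 3 * (T * k) ≤ pi.support.card)
    (h2 : T * l ≤ N - pi.support.card) :
    ∃ p : Fin T × (Fin k ⊕ Fin k ⊕ Fin l) ↪ Fin N,
      (∀ j a, pi (p (j, Sum.inl a)) = p (j, Sum.inr (Sum.inl a))) ∧
        (∀ j b, pi (p (j, Sum.inr (Sum.inr b))) = p (j, Sum.inr (Sum.inr b))) := by
  classical
  obtain ⟨V, hVs, hVc, hVd⟩ := exists_third pi
  have hTk : T * k ≤ V.card := by omega
  have hc : (pi.supportᶜ).card = N - pi.support.card := by rw [card_compl, Fintype.card_fin]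
  have hTl : T * l ≤ (pi.supportᶜ).card := by omega
  -- injections
  have e1 : Nonempty (Fin T × Fin k ↪ V) := by
    rw [Function.Embedding.nonempty_iff_card_le]
    simpa using hTk
  have e2 : Nonempty (Fin T × Fin l ↪ (pi.supportᶜ : Finset (Fin N))) := by
    rw [Function.Embedding.nonempty_iff_card_le]
    simp only [Fintype.card_prod, Fintype.card_fin, Fintype.card_coe]
    exact hTl
  obtain ⟨a1⟩ := e1
  obtain ⟨a2⟩ := e2
  let g : Fin T × (Fin k ⊕ Fin k ⊕ Fin l) → Fin N := fun x =>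
    match x with
    | (j, Sum.inl a) => (a1 (j, a) : Fin N)
    | (j, Sum.inr (Sum.inl a)) => pi (a1 (j, a) : Fin N)
    | (j, Sum.inr (Sum.inr b)) => (a2 (j, b) : Fin N)
  have d1 : ∀ x y, (a1 x : Fin N) ≠ pi (a1 y : Fin N) := fun x y he =>
    (disjoint_left.mp hVd) (a1 x).2 (mem_map.mpr ⟨a1 y, (a1 y).2, he.symm⟩)
  have d2 : ∀ x y, (a1 x : Fin N) ≠ (a2 y : Fin N) := fun x y he =>
    (mem_compl.mp (a2 y).2) (he ▸ hVs (a1 x).2)
  have d3 : ∀ x y, pi (a1 x : Fin N) ≠ (a2 y : Fin N) := fun x y he => by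
    have h := hVs (a1 x).2
    have h' : pi (a1 x : Fin N) ∈ pi.support := Equiv.Perm.apply_mem_support.mpr h
    exact (mem_compl.mp (a2 y).2) (he ▸ h')
  have hinj : Function.Injective g := by
    rintro ⟨j, x⟩ ⟨j', x'⟩ he
    rcases x with a | a | a <;> rcases x' with b | b | b
    · have h : a1 (j, a) = a1 (j', b) := Subtype.ext he
      have h' := a1.injective h
      simp only [Prod.mk.injEq] at h' ⊢
      exact ⟨h'.1, by rw [h'.2]⟩
    · exact absurd he (d1 _ _)
    · exact absurd he (d2 _ _)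
    · exact absurd he.symm (d1 _ _)
    · have h : a1 (j, a) = a1 (j', b) := Subtype.ext (pi.injective he)
      have h' := a1.injective h
      simp only [Prod.mk.injEq] at h' ⊢
      exact ⟨h'.1, by rw [h'.2]⟩
    · exact absurd he (d3 _ _)
    · exact absurd he.symm (d2 _ _)
    · exact absurd he.symm (d3 _ _)
    · have h : a2 (j, a) = a2 (j', b) := Subtype.ext he
      have h' := a2.injective h
      simp only [Prod.mk.injEq] at h' ⊢
      exact ⟨h'.1, by rw [h'.2]⟩
  refine ⟨⟨g, hinj⟩, fun j a => rfl, fun j b => ?_⟩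
  show pi (a2 (j, b) : Fin N) = (a2 (j, b) : Fin N)
  have h := mem_compl.mp (a2 (j, b)).2
  rw [Equiv.Perm.mem_support, not_not] at h
  exact h

end Pool.Agent.Lib.MP_90b327_co.AR
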