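import Pool.Agent.Lib.MP_90b327_co.AR.Core
import Pool.Agent.Lib.MP_90b327_co.AR.Pairs
import Pool.Agent.Lib.MP_90b327_co.RS.XCoord

/-!
Theorem P: almost every relabelling of one coordinate, every dimension.
-/

set_option autoImplicit false

namespace Pool.Agent.Lib.MP_90b327_co.AR

open Finset

/-- the labelling of the two windows -/
noncomputable def embP {n k : ℕ} (g G : Finset (Fin n)) (hg : g.card = k) (hG : G.card = k) :
    Fin k ⊕ Fin k ⊕ Fin 0 ↪ Fin n ⊕ Fin n where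
  toFun x := match x with
    | Sum.inl a => Sum.inl (g.orderEmbOfFin hg a)
    | Sum.inr (Sum.inl a) => Sum.inr (G.orderEmbOfFin hG a)
    | Sum.inr (Sum.inr b) => b.elim0
  inj' x y h := by
    rcases x with a | a | a
    · rcases y with b | b | b
      · simp only [Sum.inl.injEq, EmbeddingLike.apply_eq_iff_eq] at h
        rw [h]
      · simp at h
      · exact b.elim0
    · rcases y with b | b | b
      · simp at h
      · simp only [Sum.inr.injEq, EmbeddingLike.apply_eq_iff_eq] at h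
        rw [h]
      · exact b.elim0
    · exact a.elim0

theorem theoremP (d : ℕ) (hd : 2 ≤ d) (δ : ℝ) (hδ : 0 < δ) (M : ℕ) :
    ∃ c : ℝ, 0 < c ∧ ∃ N₀ : ℕ, ∀ N, N₀ ≤ N → ∀ (i : Fin d) (S : Finset (Finset (Fin d → Fin N))),
      δ * 2 ^ (N ^ d) < (S.card : ℝ) → ∀ π : Equiv.Perm (Fin N),
        ((univ.filter (fun σ : Equiv.Perm (Fin N) => ¬ ∃ γ : Finset (Fin N), γ.Nonempty ∧
          M ≤ γ.card ∧ c * 2 ^ (N ^ d) ≤
            ((hits S (box i γ (γ.image (σ * π * σ⁻¹)))).card : ℝ))).card : ℝ) ≤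
          2 * Real.exp (-c * π.support.card) * N.factorial := by
  classical
  obtain ⟨N₁', hbb'⟩ := RS.x_coord d hd (δ / 2) (by positivity) (max M 1) Polynomial.X
    (by simp) (by simp)
  obtain ⟨N₁, hN₁def⟩ : ∃ N₁ : ℕ, N₁ = max N₁' 1 := ⟨_, rfl⟩
  have hN₁' : N₁' ≤ N₁ := by omega
  have hN₁ : 1 ≤ N₁ := by omega
  let J := {q : Finset (Fin N₁) × Finset (Fin N₁) // q.2.card = q.1.card ∧ max M 1 ≤ q.1.card}
  have hfin : Fintype J := inferInstance
  have hbb : ∀ (i : Fin d) (S0 : Finset (Finset (Fin d → Fin N₁))),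
      δ / 2 * 2 ^ (N₁ ^ d) < (S0.card : ℝ) →
      ∃ j : J, ∃ X ∈ S0, Disjoint X (box i j.1.1 j.1.2) ∧ X ∪ box i j.1.1 j.1.2 ∈ S0 := by
    intro i S0 hS0
    obtain ⟨X, hX, γ, Γ, h1, -, h3, h4, h5⟩ := hbb' N₁ hN₁' i S0 hS0
    have h3' : Γ.card = γ.card := by
      rw [Polynomial.eval_X] at h3
      exact_mod_cast h3
    exact ⟨⟨(γ, Γ), h3', h1⟩, X, hX, h4, h5⟩
  have hexp : ∀ (N : ℕ) (i : Fin d) (S : Finset (Finset (Fin d → Fin N))),
      2 * Fintype.card (Fin N₁ ⊕ Fin N₁) ^ 2 ≤ N → δ * 2 ^ (N ^ d) < (S.card : ℝ) →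
      ∀ π : Equiv.Perm (Fin N), ∃ j : J,
      ((univ.filter (fun σ : Equiv.Perm (Fin N) => ¬ ∃ γ : Finset (Fin N),
      γ.card = j.1.1.card + 0 ∧ (γ.filter (fun x => (σ * π * σ⁻¹) x ≠ x)).card = j.1.1.card ∧
      (γ.image (σ * π * σ⁻¹) \ γ).card = j.1.1.card ∧
      cst δ (N₁ ^ d) N₁ (Fintype.card J) * 2 ^ (N ^ d) ≤
        ((hits S (box i γ (γ.image (σ * π * σ⁻¹)))).card : ℝ))).card : ℝ) ≤
      2 * Real.exp (-cst δ (N₁ ^ d) N₁ (Fintype.card J) * π.support.card) * N.factorial := by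
    intro N i S hN hS π
    exact final i (fun j : J => j.1.1) (fun j : J => j.1.2) δ hδ (hbb i)
      Function.Embedding.inl Function.Embedding.inr (fun j => j.1.1.card) (fun _ => 0)
      (fun j => embP j.1.1 j.1.2 rfl j.2.1) (by
        intro j
        ext x
        simp only [mem_union, mem_image, mem_univ, true_and, mem_map]
        constructor
        · rintro (⟨a, rfl⟩ | ⟨b, rfl⟩)
          · exact ⟨_, Finset.orderEmbOfFin_mem _ rfl a, rfl⟩
          · exact b.elim0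
        · rintro ⟨y, hy, rfl⟩
          have : y ∈ Set.range (j.1.1.orderEmbOfFin rfl) := by
            rw [Finset.range_orderEmbOfFin]; exact hy
          obtain ⟨a, ha⟩ := this
          exact Or.inl ⟨a, by rw [← ha]; rfl⟩) (by
        intro j
        ext x
        simp only [mem_union, mem_image, mem_univ, true_and, mem_map]
        constructor
        · rintro (⟨a, rfl⟩ | ⟨b, rfl⟩)
          · exact ⟨_, Finset.orderEmbOfFin_mem _ j.2.1 a, rfl⟩
          · exact b.elim0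
        · rintro ⟨y, hy, rfl⟩
          have : y ∈ Set.range (j.1.2.orderEmbOfFin j.2.1) := by
            rw [Finset.range_orderEmbOfFin]; exact hy
          obtain ⟨a, ha⟩ := this
          exact Or.inl ⟨a, by rw [← ha]; rfl⟩) hN S hS N₁ hN₁ (by
        intro j
        have := Finset.card_le_univ j.1.1
        rw [Fintype.card_fin] at this
        omega) π π.support.card le_rfl (Or.inl fun _ => rfl)
      (fun T k l h1 h2 => exists_groups π T k l h1 h2)
  rcases Nat.eq_zero_or_pos (Fintype.card J) with h0 | h0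
  · refine ⟨1, one_pos, 2 * Fintype.card (Fin N₁ ⊕ Fin N₁) ^ 2, fun N hN i S hS π => ?_⟩
    obtain ⟨j, -⟩ := hexp N i S hN hS π
    exact absurd (Fintype.card_eq_zero_iff.mp h0) (fun h => h.false j)
  · refine ⟨cst δ (N₁ ^ d) N₁ (Fintype.card J), cst_pos δ hδ _ _ _ hN₁ h0,
      2 * Fintype.card (Fin N₁ ⊕ Fin N₁) ^ 2, fun N hN i S hS π => ?_⟩
    obtain ⟨j, hj⟩ := hexp N i S hN hS π
    refine le_trans ?_ hj
    have : (univ.filter (fun σ : Equiv.Perm (Fin N) => ¬ ∃ γ : Finset (Fin N), γ.Nonempty ∧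
          M ≤ γ.card ∧ cst δ (N₁ ^ d) N₁ (Fintype.card J) * 2 ^ (N ^ d) ≤
            ((hits S (box i γ (γ.image (σ * π * σ⁻¹)))).card : ℝ))) ⊆
        (univ.filter (fun σ : Equiv.Perm (Fin N) => ¬ ∃ γ : Finset (Fin N),
      γ.card = j.1.1.card + 0 ∧ (γ.filter (fun x => (σ * π * σ⁻¹) x ≠ x)).card = j.1.1.card ∧
      (γ.image (σ * π * σ⁻¹) \ γ).card = j.1.1.card ∧
      cst δ (N₁ ^ d) N₁ (Fintype.card J) * 2 ^ (N ^ d) ≤
        ((hits S (box i γ (γ.image (σ * π * σ⁻¹)))).card : ℝ))) := by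
      intro σ hσ
      simp only [mem_filter, mem_univ, true_and] at hσ ⊢
      rintro ⟨γ, h1, h2, h3, h4⟩
      have h5 := j.2.2
      refine hσ ⟨γ, ?_, by omega, h4⟩
      rw [← Finset.card_pos]
      omega
    exact_mod_cast Finset.card_le_card this

end Pool.Agent.Lib.MP_90b327_co.AR
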