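import Pool.Agent.Lib.MP_90b327_co.AR.Core
import Pool.Agent.Lib.MP_90b327_co.AR.Pairs
import Pool.Agent.Lib.MP_90b327_co.BX.Squares

/-!
Theorem Q: squares, almost every relabelling of the second coordinate, boundedly many moved elements.
-/

set_option autoImplicit false

namespace Pool.Agent.Lib.MP_90b327_co.AR

open Finset

/-- the labelling of a window by differences and intersection -/
noncomputable def embQ {n k l : ℕ} (g G : Finset (Fin n)) (h1 : (g \ G).card = k)
    (h2 : (G \ g).card = k) (h3 : (g ∩ G).card = l) :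
    Fin k ⊕ Fin k ⊕ Fin l ↪ Fin n where
  toFun x := match x with
    | Sum.inl a => (g \ G).orderEmbOfFin h1 a
    | Sum.inr (Sum.inl a) => (G \ g).orderEmbOfFin h2 a
    | Sum.inr (Sum.inr b) => (g ∩ G).orderEmbOfFin h3 b
  inj' x y h := by
    have m1 : ∀ a, (g \ G).orderEmbOfFin h1 a ∈ g \ G := fun a => Finset.orderEmbOfFin_mem _ h1 a
    have m2 : ∀ a, (G \ g).orderEmbOfFin h2 a ∈ G \ g := fun a => Finset.orderEmbOfFin_mem _ h2 a
    have m3 : ∀ a, (g ∩ G).orderEmbOfFin h3 a ∈ g ∩ G := fun a => Finset.orderEmbOfFin_mem _ h3 a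
    rcases x with a | a | a
    · have ha := m1 a
      rw [mem_sdiff] at ha
      rcases y with b | b | b
      · simp only [EmbeddingLike.apply_eq_iff_eq] at h
        rw [h]
      · have hb := m2 b
        rw [mem_sdiff] at hb
        simp only at h
        rw [h] at ha
        exact absurd ha.1 hb.2
      · have hb := m3 b
        rw [mem_inter] at hb
        simp only at h
        rw [h] at ha
        exact absurd hb.2 ha.2
    · have ha := m2 a
      rw [mem_sdiff] at ha
      rcases y with b | b | b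
      · have hb := m1 b
        rw [mem_sdiff] at hb
        simp only at h
        rw [h] at ha
        exact absurd ha.1 hb.2
      · simp only [EmbeddingLike.apply_eq_iff_eq] at h
        rw [h]
      · have hb := m3 b
        rw [mem_inter] at hb
        simp only at h
        rw [h] at ha
        exact absurd hb.1 ha.2
    · have ha := m3 a
      rw [mem_inter] at ha
      rcases y with b | b | b
      · have hb := m1 b
        rw [mem_sdiff] at hb
        simp only at h
        rw [h] at ha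
        exact absurd ha.2 hb.2
      · have hb := m2 b
        rw [mem_sdiff] at hb
        simp only at h
        rw [h] at ha
        exact absurd ha.1 hb.2
      · simp only [EmbeddingLike.apply_eq_iff_eq] at h
        rw [h]

theorem mem_range_orderEmb {n k : ℕ} (s : Finset (Fin n)) (h : s.card = k) (x : Fin n)
    (hx : x ∈ s) : ∃ a, s.orderEmbOfFin h a = x := by
  have : x ∈ Set.range (s.orderEmbOfFin h) := by
    rw [Finset.range_orderEmbOfFin]; exact hx
  exact this

theorem box_two {N : ℕ} (g G : Finset (Fin N)) :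
    box (1 : Fin 2) g G = Fintype.piFinset ![g, G] := by
  unfold box
  congr 1
  funext j
  fin_cases j <;> simp [Function.update]

theorem theoremQ (δ : ℝ) (hδ : 0 < δ) (M : ℕ) (h : ℕ → ℕ) :
    ∃ (K : ℕ) (c : ℝ), 0 < c ∧ ∃ N₀ : ℕ, ∀ N, N₀ ≤ N →
      ∀ (S : Finset (Finset (Fin 2 → Fin N))),
      δ * 2 ^ (N ^ 2) < (S.card : ℝ) → ∀ π : Equiv.Perm (Fin N),
        ((univ.filter (fun σ : Equiv.Perm (Fin N) => ¬ ∃ γ : Finset (Fin N),
          γ.Nonempty ∧ M ≤ γ.card ∧ (γ.filter (fun x => (σ * π * σ⁻¹) x ≠ x)).card =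
            (γ.image (σ * π * σ⁻¹) \ γ).card ∧ (γ.image (σ * π * σ⁻¹) \ γ).card ≤ K ∧
          h (γ.image (σ * π * σ⁻¹) \ γ).card ≤ γ.card ∧
          c * 2 ^ (N ^ 2) ≤
            ((hits S (box 1 γ (γ.image (σ * π * σ⁻¹)))).card : ℝ))).card : ℝ) ≤
          2 * Real.exp (-c * (min π.support.card (N - π.support.card) : ℕ)) * N.factorial := by
  classical
  obtain ⟨K, N₁', hbb'⟩ := BX.squares_bounded (δ / 2) (by positivity) M h
  obtain ⟨N₁, hN₁def⟩ : ∃ N₁ : ℕ, N₁ = max N₁' 1 := ⟨_, rfl⟩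
  have hN₁' : N₁' ≤ N₁ := by omega
  have hN₁ : 1 ≤ N₁ := by omega
  let J := {q : Finset (Fin N₁) × Finset (Fin N₁) // q.1.Nonempty ∧ M ≤ q.1.card ∧
    q.2.card = q.1.card ∧ (q.2 \ q.1).card ≤ K ∧ h (q.2 \ q.1).card ≤ q.1.card}
  have hfin : Fintype J := inferInstance
  have hbb : ∀ (S0 : Finset (Finset (Fin 2 → Fin N₁))),
      δ / 2 * 2 ^ (N₁ ^ 2) < (S0.card : ℝ) →
      ∃ j : J, ∃ X ∈ S0, Disjoint X (box 1 j.1.1 j.1.2) ∧ X ∪ box 1 j.1.1 j.1.2 ∈ S0 := by
    intro S0 hS0
    obtain ⟨X, hX, γ, γ', h1, h2, h3, h4, h5, h6, h7⟩ := hbb' N₁ hN₁' S0 hS0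
    refine ⟨⟨(γ, γ'), h1, h2, h3, h4, h5⟩, X, hX, ?_, ?_⟩
    · rw [box_two]; exact h6
    · rw [box_two]; exact h7
  have hcard : ∀ j : J, (j.1.1 \ j.1.2).card = (j.1.2 \ j.1.1).card := by
    intro j
    have h1 := Finset.card_sdiff_add_card_inter j.1.1 j.1.2
    have h2 := Finset.card_sdiff_add_card_inter j.1.2 j.1.1
    rw [Finset.inter_comm j.1.2 j.1.1] at h2
    have h3 := j.2.2.2.1
    omega
  have hexp : ∀ (N : ℕ) (S : Finset (Finset (Fin 2 → Fin N))),
      2 * Fintype.card (Fin N₁) ^ 2 ≤ N → δ * 2 ^ (N ^ 2) < (S.card : ℝ) →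
      ∀ π : Equiv.Perm (Fin N), ∃ j : J,
      ((univ.filter (fun σ : Equiv.Perm (Fin N) => ¬ ∃ γ : Finset (Fin N),
      γ.card = (j.1.2 \ j.1.1).card + (j.1.1 ∩ j.1.2).card ∧
      (γ.filter (fun x => (σ * π * σ⁻¹) x ≠ x)).card = (j.1.2 \ j.1.1).card ∧
      (γ.image (σ * π * σ⁻¹) \ γ).card = (j.1.2 \ j.1.1).card ∧
      cst δ (N₁ ^ 2) N₁ (Fintype.card J) * 2 ^ (N ^ 2) ≤
        ((hits S (box 1 γ (γ.image (σ * π * σ⁻¹)))).card : ℝ))).card : ℝ) ≤
      2 * Real.exp (-cst δ (N₁ ^ 2) N₁ (Fintype.card J) *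
        (min π.support.card (N - π.support.card) : ℕ)) * N.factorial := by
    intro N S hN hS π
    exact final 1 (fun j : J => j.1.1) (fun j : J => j.1.2) δ hδ hbb
      (Function.Embedding.refl _) (Function.Embedding.refl _)
      (fun j => (j.1.2 \ j.1.1).card) (fun j => (j.1.1 ∩ j.1.2).card)
      (fun j => embQ j.1.1 j.1.2 (hcard j) rfl rfl) (by
        intro j
        rw [Finset.map_refl]
        ext x
        simp only [mem_union, mem_image, mem_univ, true_and]
        constructor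
        · rintro (⟨a, rfl⟩ | ⟨b, rfl⟩)
          · exact (mem_sdiff.mp (Finset.orderEmbOfFin_mem _ (hcard j) a)).1
          · exact (mem_inter.mp (Finset.orderEmbOfFin_mem (j.1.1 ∩ j.1.2) rfl b)).1
        · intro hx
          by_cases hx' : x ∈ j.1.2
          · exact Or.inr (mem_range_orderEmb _ rfl x (mem_inter.mpr ⟨hx, hx'⟩))
          · exact Or.inl (mem_range_orderEmb _ (hcard j) x (mem_sdiff.mpr ⟨hx, hx'⟩))) (by
        intro j
        rw [Finset.map_refl]
        ext x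
        simp only [mem_union, mem_image, mem_univ, true_and]
        constructor
        · rintro (⟨a, rfl⟩ | ⟨b, rfl⟩)
          · exact (mem_sdiff.mp (Finset.orderEmbOfFin_mem (j.1.2 \ j.1.1) rfl a)).1
          · exact (mem_inter.mp (Finset.orderEmbOfFin_mem (j.1.1 ∩ j.1.2) rfl b)).2
        · intro hx
          by_cases hx' : x ∈ j.1.1
          · exact Or.inr (mem_range_orderEmb _ rfl x (mem_inter.mpr ⟨hx', hx⟩))
          · exact Or.inl (mem_range_orderEmb _ rfl x (mem_sdiff.mpr ⟨hx, hx'⟩))) hN S hS N₁ hN₁ (by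
        intro j
        have h1 := Finset.card_sdiff_add_card_inter j.1.1 j.1.2
        rw [hcard j] at h1
        rw [h1]
        have := Finset.card_le_univ j.1.1
        rwa [Fintype.card_fin] at this) π (min π.support.card (N - π.support.card))
        (min_le_left _ _) (Or.inr (min_le_right _ _))
      (fun T k l h1 h2 => exists_groups π T k l h1 h2)
  rcases Nat.eq_zero_or_pos (Fintype.card J) with h0 | h0
  · refine ⟨K, 1, one_pos, 2 * Fintype.card (Fin N₁) ^ 2, fun N hN S hS π => ?_⟩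
    obtain ⟨j, -⟩ := hexp N S hN hS π
    exact absurd (Fintype.card_eq_zero_iff.mp h0) (fun h => h.false j)
  · refine ⟨K, cst δ (N₁ ^ 2) N₁ (Fintype.card J), cst_pos δ hδ _ _ _ hN₁ h0,
      2 * Fintype.card (Fin N₁) ^ 2, fun N hN S hS π => ?_⟩
    obtain ⟨j, hj⟩ := hexp N S hN hS π
    refine le_trans ?_ hj
    have : (univ.filter (fun σ : Equiv.Perm (Fin N) => ¬ ∃ γ : Finset (Fin N),
          γ.Nonempty ∧ M ≤ γ.card ∧ (γ.filter (fun x => (σ * π * σ⁻¹) x ≠ x)).card =
            (γ.image (σ * π * σ⁻¹) \ γ).card ∧ (γ.image (σ * π * σ⁻¹) \ γ).card ≤ K ∧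
          h (γ.image (σ * π * σ⁻¹) \ γ).card ≤ γ.card ∧
          cst δ (N₁ ^ 2) N₁ (Fintype.card J) * 2 ^ (N ^ 2) ≤
            ((hits S (box 1 γ (γ.image (σ * π * σ⁻¹)))).card : ℝ))) ⊆
        (univ.filter (fun σ : Equiv.Perm (Fin N) => ¬ ∃ γ : Finset (Fin N),
      γ.card = (j.1.2 \ j.1.1).card + (j.1.1 ∩ j.1.2).card ∧
      (γ.filter (fun x => (σ * π * σ⁻¹) x ≠ x)).card = (j.1.2 \ j.1.1).card ∧
      (γ.image (σ * π * σ⁻¹) \ γ).card = (j.1.2 \ j.1.1).card ∧
      cst δ (N₁ ^ 2) N₁ (Fintype.card J) * 2 ^ (N ^ 2) ≤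
        ((hits S (box 1 γ (γ.image (σ * π * σ⁻¹)))).card : ℝ))) := by
      intro σ hσ
      simp only [mem_filter, mem_univ, true_and] at hσ ⊢
      rintro ⟨γ, h1, h2, h3, h4⟩
      have h5 := Finset.card_sdiff_add_card_inter j.1.1 j.1.2
      rw [hcard j] at h5
      rw [h5] at h1
      refine hσ ⟨γ, ?_, ?_, h2.trans h3.symm, h3.le.trans j.2.2.2.2.1, ?_, h4⟩
      · rw [← Finset.card_pos, h1, Finset.card_pos]
        exact j.2.1
      · rw [h1]; exact j.2.2.1
      · rw [h1, h3]; exact j.2.2.2.2.2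
    exact_mod_cast Finset.card_le_card this

end Pool.Agent.Lib.MP_90b327_co.AR
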