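import Mathlib

/-!
# AR / RGroups: disjoint triples for an idempotent map

`f (f x) = f x`. Groups of `k` values `v` with a second preimage `w ≠ v` each, and `l` points whose
only preimage is the point itself, all different.
-/

set_option autoImplicit false

open Finset

namespace Pool.Agent.Lib.MP_90b327_co.AR

theorem exists_rgroups {N : ℕ} (f : Fin N → Fin N) (hf : ∀ x, f (f x) = f x) (T k l : ℕ)
    (h1 : T * k ≤ (univ.filter fun v : Fin N => ∃ w, w ≠ v ∧ f w = v).card)
    (h2 : T * l ≤ (univ.filter fun x : Fin N => f x = x ∧ ∀ y, f y = x → y = x).card) :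
    ∃ p : Fin T × (Fin k ⊕ Fin k ⊕ Fin l) ↪ Fin N,
      (∀ j a, f (p (j, Sum.inl a)) = p (j, Sum.inl a)) ∧
        (∀ j a, f (p (j, Sum.inr (Sum.inl a))) = p (j, Sum.inl a)) ∧
          (∀ j b, f (p (j, Sum.inr (Sum.inr b))) = p (j, Sum.inr (Sum.inr b))) := by
  classical
  set A : Finset (Fin N) := univ.filter fun v : Fin N => ∃ w, w ≠ v ∧ f w = v with hA
  set B : Finset (Fin N) := univ.filter fun x : Fin N => f x = x ∧ ∀ y, f y = x → y = x with hB
  have hAe : Nonempty (Fin T × Fin k ↪ A) := by
    apply Function.Embedding.nonempty_of_card_le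
    simpa using h1
  have hBe : Nonempty (Fin T × Fin l ↪ B) := by
    apply Function.Embedding.nonempty_of_card_le
    simpa using h2
  obtain ⟨i⟩ := hAe
  obtain ⟨j⟩ := hBe
  have hw : ∀ v : A, ∃ w, w ≠ (v : Fin N) ∧ f w = v := fun v => (mem_filter.1 v.2).2
  choose w hw1 hw2 using hw
  have hv : ∀ v : A, f v = v := fun v => by
    have := hf (w v)
    rwa [hw2 v] at this
  have hb : ∀ x : B, f x = x := fun x => (mem_filter.1 x.2).2.1
  have hb' : ∀ (x : B) (y : Fin N), f y = x → y = x := fun x => (mem_filter.1 x.2).2.2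
  let q : Fin T × (Fin k ⊕ Fin k ⊕ Fin l) → Fin N := fun z =>
    match z with
    | (t, Sum.inl a) => (i (t, a) : Fin N)
    | (t, Sum.inr (Sum.inl a)) => w (i (t, a))
    | (t, Sum.inr (Sum.inr b)) => (j (t, b) : Fin N)
  have hq : Function.Injective q := by
    rintro ⟨t, a | a | b⟩ ⟨t', a' | a' | b'⟩ h
    · have h3 : i (t, a) = i (t', a') := Subtype.ext h
      have h4 := i.injective h3
      simp only [Prod.mk.injEq] at h4
      rw [h4.1, h4.2]
    · have h3 : (i (t, a) : Fin N) = w (i (t', a')) := h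
      have h4 : f (i (t, a) : Fin N) = f (w (i (t', a'))) := by rw [h3]
      rw [hv, hw2] at h4
      exact absurd (h3.symm.trans h4) (hw1 _)
    · have h3 : (i (t, a) : Fin N) = j (t', b') := h
      have h4 : w (i (t, a)) = j (t', b') := hb' _ _ ((hw2 _).trans h3)
      exact absurd (h4.trans h3.symm) (hw1 _)
    · have h3 : w (i (t, a)) = (i (t', a') : Fin N) := h
      have h4 : f (w (i (t, a))) = f (i (t', a') : Fin N) := by rw [h3]
      rw [hv, hw2] at h4
      exact absurd (h3.trans h4.symm) (hw1 _)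
    · have h3 : w (i (t, a)) = w (i (t', a')) := h
      have h4 : f (w (i (t, a))) = f (w (i (t', a'))) := by rw [h3]
      rw [hw2, hw2] at h4
      have h5 := i.injective (Subtype.ext h4)
      simp only [Prod.mk.injEq] at h5
      rw [h5.1, h5.2]
    · have h3 : w (i (t, a)) = (j (t', b') : Fin N) := h
      have h4 : f (w (i (t, a))) = f (j (t', b') : Fin N) := by rw [h3]
      rw [hw2, hb] at h4
      exact absurd (h3.trans h4.symm) (hw1 _)
    · have h3 : (j (t, b) : Fin N) = i (t', a') := h
      have h4 : w (i (t', a')) = j (t, b) := hb' _ _ ((hw2 _).trans h3.symm)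
      exact absurd (h4.trans h3) (hw1 _)
    · have h3 : (j (t, b) : Fin N) = w (i (t', a')) := h
      have h4 : f (j (t, b) : Fin N) = f (w (i (t', a'))) := by rw [h3]
      rw [hw2, hb] at h4
      exact absurd (h3.symm.trans h4) (hw1 _)
    · have h3 : j (t, b) = j (t', b') := Subtype.ext h
      have h4 := j.injective h3
      simp only [Prod.mk.injEq] at h4
      rw [h4.1, h4.2]
  exact ⟨⟨q, hq⟩, fun t a => hv _, fun t a => hw2 _, fun t b => hb _⟩

end Pool.Agent.Lib.MP_90b327_co.AR
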