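import Pool.Agent.Lib.MP_90b327_co.AR.RCore
import Pool.Agent.Lib.MP_90b327_co.AR.RGroups
import Pool.Agent.Lib.MP_90b327_co.AR.NearCubesBB

/-!
Theorem R: idempotent maps, every dimension, almost every relabelling, boundedly many other
elements.
-/

set_option autoImplicit false

namespace Pool.Agent.Lib.MP_90b327_co.AR

open Finset

/-- a subset `C` of the elements of `g` of the same size as `G \ g` -/
theorem exists_part {n : ℕ} (g G : Finset (Fin n)) (h : (G \ g).card ≤ g.card) :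
    ∃ C : Finset (Fin n), C ⊆ g ∧ C.card = (G \ g).card :=
  Finset.exists_subset_card_eq h

/-- the labelling of a window by a part `C` of `g`, the complement `G \ g` and the rest of `g` -/
theorem exists_embR {n : ℕ} (g G : Finset (Fin n)) (hgG : g ⊆ G) (h : (G \ g).card ≤ g.card) :
    ∃ e : Fin (G \ g).card ⊕ Fin (G \ g).card ⊕ Fin (g.card - (G \ g).card) ↪ Fin n,
      univ.image (fun a => e (Sum.inl a)) ∪ univ.image (fun b => e (Sum.inr (Sum.inr b))) = g ∧
      univ.image (fun x => e x) = G := by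
  classical
  obtain ⟨C, hC, hCc⟩ := exists_part g G h
  have hD : (g \ C).card = g.card - (G \ g).card := by
    rw [Finset.card_sdiff_of_subset hC, hCc]
  have m1 : ∀ a, C.orderEmbOfFin hCc a ∈ C := fun a => Finset.orderEmbOfFin_mem _ hCc a
  have m2 : ∀ a, (G \ g).orderEmbOfFin rfl a ∈ G \ g :=
    fun a => Finset.orderEmbOfFin_mem _ rfl a
  have m3 : ∀ a, (g \ C).orderEmbOfFin hD a ∈ g \ C := fun a => Finset.orderEmbOfFin_mem _ hD a
  have r : ∀ (s : Finset (Fin n)) (k : ℕ) (hs : s.card = k) (x : Fin n), x ∈ s →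
      ∃ a, s.orderEmbOfFin hs a = x := by
    intro s k hs x hx
    have : x ∈ Set.range (s.orderEmbOfFin hs) := by
      rw [Finset.range_orderEmbOfFin]; exact hx
    exact this
  let q : Fin (G \ g).card ⊕ Fin (G \ g).card ⊕ Fin (g.card - (G \ g).card) → Fin n :=
    fun x => match x with
    | Sum.inl a => C.orderEmbOfFin hCc a
    | Sum.inr (Sum.inl a) => (G \ g).orderEmbOfFin rfl a
    | Sum.inr (Sum.inr b) => (g \ C).orderEmbOfFin hD b
  have hq : Function.Injective q := by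
    rintro (a | a | a) (b | b | b) hab
    · have h1 : C.orderEmbOfFin hCc a = C.orderEmbOfFin hCc b := hab
      rw [(C.orderEmbOfFin hCc).injective h1]
    · have h1 : C.orderEmbOfFin hCc a = (G \ g).orderEmbOfFin rfl b := hab
      have h2 := m1 a
      rw [h1] at h2
      exact absurd (hC h2) (mem_sdiff.mp (m2 b)).2
    · have h1 : C.orderEmbOfFin hCc a = (g \ C).orderEmbOfFin hD b := hab
      have h2 := m1 a
      rw [h1] at h2
      exact absurd h2 (mem_sdiff.mp (m3 b)).2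
    · have h1 : (G \ g).orderEmbOfFin rfl a = C.orderEmbOfFin hCc b := hab
      have h2 := m1 b
      rw [← h1] at h2
      exact absurd (hC h2) (mem_sdiff.mp (m2 a)).2
    · have h1 : (G \ g).orderEmbOfFin rfl a = (G \ g).orderEmbOfFin rfl b := hab
      rw [((G \ g).orderEmbOfFin rfl).injective h1]
    · have h1 : (G \ g).orderEmbOfFin rfl a = (g \ C).orderEmbOfFin hD b := hab
      have h2 := m2 a
      rw [h1] at h2
      exact absurd (mem_sdiff.mp (m3 b)).1 (mem_sdiff.mp h2).2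
    · have h1 : (g \ C).orderEmbOfFin hD a = C.orderEmbOfFin hCc b := hab
      have h2 := m1 b
      rw [← h1] at h2
      exact absurd h2 (mem_sdiff.mp (m3 a)).2
    · have h1 : (g \ C).orderEmbOfFin hD a = (G \ g).orderEmbOfFin rfl b := hab
      have h2 := m2 b
      rw [← h1] at h2
      exact absurd (mem_sdiff.mp (m3 a)).1 (mem_sdiff.mp h2).2
    · have h1 : (g \ C).orderEmbOfFin hD a = (g \ C).orderEmbOfFin hD b := hab
      rw [((g \ C).orderEmbOfFin hD).injective h1]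
  refine ⟨⟨q, hq⟩, ?_, ?_⟩
  · ext x
    simp only [mem_union, mem_image, mem_univ, true_and]
    constructor
    · rintro (⟨a, rfl⟩ | ⟨b, rfl⟩)
      · exact hC (m1 a)
      · exact (mem_sdiff.mp (m3 b)).1
    · intro hx
      by_cases hx' : x ∈ C
      · obtain ⟨a, ha⟩ := r C _ hCc x hx'
        exact Or.inl ⟨a, ha⟩
      · obtain ⟨b, hb⟩ := r (g \ C) _ hD x (mem_sdiff.mpr ⟨hx, hx'⟩)
        exact Or.inr ⟨b, hb⟩
  · ext x
    simp only [mem_image, mem_univ, true_and]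
    constructor
    · rintro ⟨a | a | b, rfl⟩
      · exact hgG (hC (m1 a))
      · exact (mem_sdiff.mp (m2 a)).1
      · exact hgG (mem_sdiff.mp (m3 b)).1
    · intro hx
      by_cases hx' : x ∈ g
      · by_cases hx'' : x ∈ C
        · obtain ⟨a, ha⟩ := r C _ hCc x hx''
          exact ⟨Sum.inl a, ha⟩
        · obtain ⟨b, hb⟩ := r (g \ C) _ hD x (mem_sdiff.mpr ⟨hx', hx''⟩)
          exact ⟨Sum.inr (Sum.inr b), hb⟩
      · obtain ⟨a, ha⟩ := r (G \ g) _ rfl x (mem_sdiff.mpr ⟨hx, hx'⟩)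
        exact ⟨Sum.inr (Sum.inl a), ha⟩

open Classical in
theorem theoremR (d : ℕ) (δ : ℝ) (hδ : 0 < δ) (h : ℕ → ℕ) (T : Set ℕ)
    (hT : ∀ k : ℕ, ∃ x : ℕ, ∀ i < k, x + i ∈ T) :
    ∃ (K : ℕ) (c : ℝ), 0 < c ∧ ∃ N₀ : ℕ, ∀ N, N₀ ≤ N → ∀ (i : Fin d)
      (S : Finset (Finset (Fin d → Fin N))), δ * 2 ^ (N ^ d) < (S.card : ℝ) →
      ∀ f : Fin N → Fin N, (∀ x, f (f x) = f x) → ∀ t : ℕ,
      t ≤ (univ.filter fun v : Fin N => ∃ w, w ≠ v ∧ f w = v).card →
      t ≤ (univ.filter fun x : Fin N => f x = x ∧ ∀ y, f y = x → y = x).card →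
        ((univ.filter (fun σ : Equiv.Perm (Fin N) => ¬ ∃ γ : Finset (Fin N),
          γ.Nonempty ∧ γ.image (fun x => σ (f (σ.symm x))) ⊆ γ ∧
          (γ.image (fun x => σ (f (σ.symm x)))).card ∈ T ∧
          (γ \ γ.image (fun x => σ (f (σ.symm x)))).card ≤ K ∧
          h (γ \ γ.image (fun x => σ (f (σ.symm x)))).card ≤
            (γ.image (fun x => σ (f (σ.symm x)))).card ∧
          c * 2 ^ (N ^ d) ≤
            ((hits S (box i γ (γ.image (fun x => σ (f (σ.symm x)))))).card : ℝ))).card : ℝ) ≤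
          2 * Real.exp (-c * t) * N.factorial := by
  classical
  obtain ⟨K, N₁', hbb'⟩ := near_cubes_bounded d (δ / 2) (by positivity) (fun n => max (h n) n) T hT
  obtain ⟨N₁, hN₁def⟩ : ∃ N₁ : ℕ, N₁ = max N₁' 1 := ⟨_, rfl⟩
  have hN₁' : N₁' ≤ N₁ := by omega
  have hN₁ : 1 ≤ N₁ := by omega
  let J := {q : Finset (Fin N₁) × Finset (Fin N₁) // q.1.Nonempty ∧ q.1 ⊆ q.2 ∧ q.1.card ∈ T ∧
    (q.2 \ q.1).card ≤ K ∧ max (h (q.2 \ q.1).card) (q.2 \ q.1).card ≤ q.1.card}
  have hfin : Fintype J := inferInstance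
  have hbb : ∀ (i : Fin d) (S0 : Finset (Finset (Fin d → Fin N₁))),
      δ / 2 * 2 ^ (N₁ ^ d) < (S0.card : ℝ) →
      ∃ j : J, ∃ X ∈ S0, Disjoint X (box i j.1.2 j.1.1) ∧ X ∪ box i j.1.2 j.1.1 ∈ S0 := by
    intro i S0 hS0
    obtain ⟨X, hX, g, G, h1, h2, h3, h4, h5, h6, h7⟩ := hbb' N₁ hN₁' i S0 hS0
    exact ⟨⟨(g, G), h1, h2, h3, h4, h5⟩, X, hX, h6, h7⟩
  have hle : ∀ j : J, (j.1.2 \ j.1.1).card ≤ j.1.1.card := fun j =>
    (le_max_right _ _).trans j.2.2.2.2.2
  have hex : ∀ j : J, ∃ e : Fin (j.1.2 \ j.1.1).card ⊕ Fin (j.1.2 \ j.1.1).card ⊕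
      Fin (j.1.1.card - (j.1.2 \ j.1.1).card) ↪ Fin N₁,
      univ.image (fun a => e (Sum.inl a)) ∪ univ.image (fun b => e (Sum.inr (Sum.inr b))) =
        j.1.1 ∧ univ.image (fun x => e x) = j.1.2 := fun j =>
    exists_embR j.1.1 j.1.2 j.2.2.1 (hle j)
  choose e he1 he2 using hex
  have hexp : ∀ (N : ℕ) (i : Fin d) (S : Finset (Finset (Fin d → Fin N))),
      2 * N₁ ^ 2 ≤ N → δ * 2 ^ (N ^ d) < (S.card : ℝ) →
      ∀ f : Fin N → Fin N, (∀ x, f (f x) = f x) → ∀ t : ℕ,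
      t ≤ (univ.filter fun v : Fin N => ∃ w, w ≠ v ∧ f w = v).card →
      t ≤ (univ.filter fun x : Fin N => f x = x ∧ ∀ y, f y = x → y = x).card →
      ∃ j : J, ((univ.filter (fun σ : Equiv.Perm (Fin N) => ¬ ∃ γ : Finset (Fin N),
      (γ.image (fun x => σ (f (σ.symm x)))).card = (j.1.2 \ j.1.1).card +
        (j.1.1.card - (j.1.2 \ j.1.1).card) ∧
      γ.image (fun x => σ (f (σ.symm x))) ⊆ γ ∧
      (γ \ γ.image (fun x => σ (f (σ.symm x)))).card = (j.1.2 \ j.1.1).card ∧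
      cst δ (N₁ ^ d) N₁ (Fintype.card J) * 2 ^ (N ^ d) ≤
        ((hits S (box i γ (γ.image (fun x => σ (f (σ.symm x)))))).card : ℝ))).card : ℝ) ≤
      2 * Real.exp (-cst δ (N₁ ^ d) N₁ (Fintype.card J) * t) * N.factorial := by
    intro N i S hN hS f hf t ht1 ht2
    refine rfinal i (fun j : J => j.1.1) (fun j : J => j.1.2) δ hδ (hbb i)
      (fun j => (j.1.2 \ j.1.1).card) (fun j => j.1.1.card - (j.1.2 \ j.1.1).card) e he1 he2 hN S
      hS N₁ hN₁ (by
        intro j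
        have h1 := hle j
        have h2 := Finset.card_le_univ j.1.1
        rw [Fintype.card_fin] at h2
        omega) f _ _ t (by
        refine (Finset.card_le_univ _).trans ?_
        rw [Fintype.card_fin]) ht1 (Or.inr ht2)
      (fun T k l h1 h2 => exists_rgroups f hf T k l h1 h2)
  rcases Nat.eq_zero_or_pos (Fintype.card J) with h0 | h0
  · refine ⟨K, 1, one_pos, 2 * N₁ ^ 2, fun N hN i S hS f hf t ht1 ht2 => ?_⟩
    obtain ⟨j, -⟩ := hexp N i S hN hS f hf t ht1 ht2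
    exact absurd (Fintype.card_eq_zero_iff.mp h0) (fun h => h.false j)
  · refine ⟨K, cst δ (N₁ ^ d) N₁ (Fintype.card J), cst_pos δ hδ _ _ _ hN₁ h0,
      2 * N₁ ^ 2, fun N hN i S hS f hf t ht1 ht2 => ?_⟩
    obtain ⟨j, hj⟩ := hexp N i S hN hS f hf t ht1 ht2
    refine le_trans ?_ hj
    have : (univ.filter (fun σ : Equiv.Perm (Fin N) => ¬ ∃ γ : Finset (Fin N),
          γ.Nonempty ∧ γ.image (fun x => σ (f (σ.symm x))) ⊆ γ ∧
          (γ.image (fun x => σ (f (σ.symm x)))).card ∈ T ∧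
          (γ \ γ.image (fun x => σ (f (σ.symm x)))).card ≤ K ∧
          h (γ \ γ.image (fun x => σ (f (σ.symm x)))).card ≤
            (γ.image (fun x => σ (f (σ.symm x)))).card ∧
          cst δ (N₁ ^ d) N₁ (Fintype.card J) * 2 ^ (N ^ d) ≤
            ((hits S (box i γ (γ.image (fun x => σ (f (σ.symm x)))))).card : ℝ))) ⊆
        (univ.filter (fun σ : Equiv.Perm (Fin N) => ¬ ∃ γ : Finset (Fin N),
      (γ.image (fun x => σ (f (σ.symm x)))).card = (j.1.2 \ j.1.1).card +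
        (j.1.1.card - (j.1.2 \ j.1.1).card) ∧
      γ.image (fun x => σ (f (σ.symm x))) ⊆ γ ∧
      (γ \ γ.image (fun x => σ (f (σ.symm x)))).card = (j.1.2 \ j.1.1).card ∧
      cst δ (N₁ ^ d) N₁ (Fintype.card J) * 2 ^ (N ^ d) ≤
        ((hits S (box i γ (γ.image (fun x => σ (f (σ.symm x)))))).card : ℝ))) := by
      intro σ hσ
      simp only [mem_filter, mem_univ, true_and] at hσ ⊢
      rintro ⟨γ, h1, h2, h3, h4⟩
      have h5 : (j.1.2 \ j.1.1).card + (j.1.1.card - (j.1.2 \ j.1.1).card) = j.1.1.card := by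
        have := hle j
        omega
      rw [h5] at h1
      have h6 : γ.Nonempty := by
        have h7 : (γ.image (fun x => σ (f (σ.symm x)))).Nonempty := by
          rw [← Finset.card_pos, h1, Finset.card_pos]
          exact j.2.1
        exact Finset.image_nonempty.mp h7
      refine hσ ⟨γ, h6, h2, ?_, ?_, ?_, h4⟩
      · rw [h1]; exact j.2.2.2.1
      · rw [h3]; exact j.2.2.2.2.1
      · rw [h1, h3]; exact (le_max_left _ _).trans j.2.2.2.2.2
    exact_mod_cast Finset.card_le_card this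

end Pool.Agent.Lib.MP_90b327_co.AR
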