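import Mathlib

/-!
A random permutation sends one of `T` disjoint groups of points to a set of configurations of positive
density, except with probability exponentially small in `T`.
-/

set_option autoImplicit false
set_option linter.unusedSectionVars false

namespace Pool.Agent.Lib.MP_90b327_co.AR

open Finset

variable {ι : Type} [Fintype ι] [DecidableEq ι]

/-- two injections into a finite set differ by a permutation -/
theorem exists_perm_embedding {X : Type} [Fintype X] [DecidableEq X] (p U : ι ↪ X) :
    ∃ τ : Equiv.Perm X, p.trans τ.toEmbedding = U := by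
  classical
  let e : {x // x ∈ Set.range p} ≃ {x // x ∈ Set.range U} :=
    (Equiv.ofInjective p p.injective).symm.trans (Equiv.ofInjective U U.injective)
  refine ⟨e.extendSubtype, ?_⟩
  ext a
  have h := Equiv.extendSubtype_apply_of_mem e (p a) ⟨a, rfl⟩
  show e.extendSubtype (p a) = U a
  rw [h]
  show ((Equiv.ofInjective U U.injective)
    ((Equiv.ofInjective p p.injective).symm ⟨p a, ⟨a, rfl⟩⟩) : X) = U a
  have : (Equiv.ofInjective p p.injective).symm ⟨p a, ⟨a, rfl⟩⟩ = a := by
    rw [Equiv.symm_apply_eq]
    rfl
  rw [this]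
  rfl

/-- the image of `p` under a random permutation is a uniform random injection -/
theorem card_fibers {X : Type} [Fintype X] [DecidableEq X] (p : ι ↪ X) (Bad : Finset (ι ↪ X)) :
    (univ.filter (fun σ : Equiv.Perm X => p.trans σ.toEmbedding ∈ Bad)).card *
      Fintype.card (ι ↪ X) = Bad.card * (Fintype.card X).factorial := by
  classical
  set s := (univ.filter (fun σ : Equiv.Perm X => p.trans σ.toEmbedding = p)).card with hs
  have hfib : ∀ U : ι ↪ X,
      (univ.filter (fun σ : Equiv.Perm X => p.trans σ.toEmbedding = U)).card = s := by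
    intro U
    obtain ⟨τ, hτ⟩ := exists_perm_embedding p U
    rw [hs]
    symm
    apply Finset.card_bij (fun σ _ => τ * σ)
    · intro σ hσ
      simp only [mem_filter, mem_univ, true_and] at hσ ⊢
      rw [← hτ]
      ext a
      have := DFunLike.congr_fun hσ a
      show τ (σ (p a)) = τ (p a)
      exact congrArg τ this
    · intro σ _ σ' _ h
      exact mul_left_cancel h
    · intro σ hσ
      simp only [mem_filter, mem_univ, true_and] at hσ
      refine ⟨τ⁻¹ * σ, ?_, by simp⟩
      simp only [mem_filter, mem_univ, true_and]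
      ext a
      have h1 := DFunLike.congr_fun hσ a
      have h2 := DFunLike.congr_fun hτ a
      show τ⁻¹ (σ (p a)) = p a
      have h1' : σ (p a) = U a := h1
      have h2' : τ (p a) = U a := h2
      rw [h1', ← h2']
      simp
  have hsum : ∀ B : Finset (ι ↪ X),
      (univ.filter (fun σ : Equiv.Perm X => p.trans σ.toEmbedding ∈ B)).card = B.card * s := by
    intro B
    have h1 : (univ.filter (fun σ : Equiv.Perm X => p.trans σ.toEmbedding ∈ B)) =
        B.biUnion (fun U => univ.filter (fun σ : Equiv.Perm X => p.trans σ.toEmbedding = U)) := by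
      ext σ
      simp
    rw [h1, Finset.card_biUnion]
    · rw [Finset.sum_congr rfl (fun U _ => hfib U), Finset.sum_const, smul_eq_mul]
    · intro U _ V _ hUV
      rw [Function.onFun, Finset.disjoint_left]
      intro σ hσ hσ'
      simp only [mem_filter, mem_univ, true_and] at hσ hσ'
      exact hUV (hσ.symm.trans hσ')
  have htot := hsum univ
  simp only [mem_univ, Finset.filter_true] at htot
  rw [Finset.card_univ, Fintype.card_perm, Finset.card_univ] at htot
  rw [hsum, htot]
  ring

/-- the number of injections is at least `(N - n)^n` -/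
theorem card_embedding_ge (N : ℕ) (h : Fintype.card ι ≤ N) :
    (N - Fintype.card ι) ^ Fintype.card ι ≤ Fintype.card (ι ↪ Fin N) := by
  rw [Fintype.card_embedding_eq, Fintype.card_fin]
  refine le_trans ?_ (Nat.pow_sub_le_descFactorial N (Fintype.card ι))
  apply Nat.pow_le_pow_left
  omega

/-- Main counting lemma. -/
theorem perm_count {κ : Type} [Fintype κ] [DecidableEq κ] (T N : ℕ)
    (Good : Finset (κ → Fin N)) (p : Fin T × κ ↪ Fin N) (c a : ℝ) (hc : 0 < c) (hc1 : c ≤ 1)
    (hG : c * (N : ℝ) ^ Fintype.card κ ≤ (Good.card : ℝ))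
    (ha : (T * Fintype.card κ : ℝ) ≤ a * N) (ha0 : 0 ≤ a) (hac : a * Fintype.card κ ≤ c / 2) :
    ((univ.filter (fun σ : Equiv.Perm (Fin N) =>
      ∀ j, (fun k => σ (p (j, k))) ∉ Good)).card : ℝ) ≤ (1 - c / 2) ^ T * N.factorial := by
  classical
  set n := Fintype.card (Fin T × κ) with hn
  have hn' : (n : ℝ) = T * Fintype.card κ := by
    rw [hn, Fintype.card_prod, Fintype.card_fin]; push_cast; ring
  have hnN : n ≤ N := by
    have := Fintype.card_le_of_embedding p
    rwa [Fintype.card_fin] at this
  -- degenerate cases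
  rcases Nat.eq_zero_or_pos T with hT | hT
  · subst hT
    simp only [pow_zero, one_mul]
    have : (univ.filter (fun σ : Equiv.Perm (Fin N) =>
      ∀ j : Fin 0, (fun k => σ (p (j, k))) ∉ Good)).card ≤ N.factorial := by
      refine (Finset.card_le_univ _).trans ?_
      rw [Fintype.card_perm, Fintype.card_fin]
    exact_mod_cast this
  set Bad : Finset (Fin T × κ ↪ Fin N) :=
    univ.filter (fun U => ∀ j, (fun k => U (j, k)) ∉ Good) with hBad
  have h1 := card_fibers p Bad
  have h2 : (univ.filter (fun σ : Equiv.Perm (Fin N) => p.trans σ.toEmbedding ∈ Bad)) =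
      univ.filter (fun σ : Equiv.Perm (Fin N) => ∀ j, (fun k => σ (p (j, k))) ∉ Good) := by
    ext σ
    simp only [hBad, mem_filter, mem_univ, true_and]
    exact Iff.rfl
  rw [h2, Fintype.card_fin] at h1
  -- upper bound for Bad
  have h3 : (Bad.card : ℝ) ≤ ((1 - c) * (N : ℝ) ^ Fintype.card κ) ^ T := by
    have e1 : Bad.card ≤ (Fintype.piFinset (fun _ : Fin T => Goodᶜ)).card := by
      apply Finset.card_le_card_of_injOn (fun U => fun j k => U (j, k))
      · intro U hU
        have hU' : U ∈ Bad := hU
        simp only [hBad, mem_filter, mem_univ, true_and] at hU'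
        simp only [mem_coe, Fintype.mem_piFinset, mem_compl]
        exact hU'
      · intro U _ V _ h
        ext ⟨j, k⟩
        exact congrArg Fin.val (congrFun (congrFun h j) k)
    rw [Fintype.card_piFinset_const, Finset.card_compl, Fintype.card_fun, Fintype.card_fin] at e1
    have e2 : ((N ^ Fintype.card κ - Good.card : ℕ) : ℝ) ≤ (1 - c) * (N : ℝ) ^ Fintype.card κ := by
      have e3 : Good.card ≤ N ^ Fintype.card κ := by
        refine (Finset.card_le_univ _).trans ?_
        rw [Fintype.card_fun, Fintype.card_fin]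
      rw [Nat.cast_sub e3]
      push_cast
      linarith
    calc (Bad.card : ℝ) ≤ (((N ^ Fintype.card κ - Good.card) ^ T : ℕ) : ℝ) := by
          exact_mod_cast e1
      _ = ((N ^ Fintype.card κ - Good.card : ℕ) : ℝ) ^ T := by push_cast; ring
      _ ≤ _ := pow_le_pow_left₀ (Nat.cast_nonneg _) e2 T
  -- lower bound for the injections
  have h4 : ((1 - c / 2) * (N : ℝ) ^ Fintype.card κ) ^ T ≤ (Fintype.card (Fin T × κ ↪ Fin N) : ℝ) := by
    have e1 := card_embedding_ge (ι := Fin T × κ) N hnN
    rw [← hn] at e1
    have e2 : ((N - n : ℕ) : ℝ) ^ n ≤ (Fintype.card (Fin T × κ ↪ Fin N) : ℝ) := by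
      exact_mod_cast e1
    refine le_trans ?_ e2
    rw [Nat.cast_sub hnN]
    have e3 : (1 - a) * (N : ℝ) ≤ (N : ℝ) - n := by
      rw [hn']; linarith
    have hcardκ : n = T * Fintype.card κ := by rw [hn, Fintype.card_prod, Fintype.card_fin]
    rcases Nat.eq_zero_or_pos (Fintype.card κ) with hk | hk
    · rw [hcardκ, hk]
      simp only [mul_zero, pow_zero, mul_one]
      apply pow_le_one₀
      · linarith
      · linarith
    · have hk' : (1 : ℝ) ≤ Fintype.card κ := by exact_mod_cast hk
      have ha1 : a ≤ 1 := by nlinarith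
      have e4 : (1 - a) ^ Fintype.card κ ≥ 1 - c / 2 := by
        have := one_add_mul_le_pow (a := -a) (by linarith) (Fintype.card κ)
        have h5 : 1 + (Fintype.card κ : ℝ) * -a ≥ 1 - c / 2 := by linarith
        calc (1 - a) ^ Fintype.card κ = (1 + -a) ^ Fintype.card κ := by ring_nf
          _ ≥ 1 + (Fintype.card κ : ℝ) * -a := this
          _ ≥ _ := h5
      have hN0 : (0 : ℝ) ≤ N := Nat.cast_nonneg _
      calc ((1 - c / 2) * (N : ℝ) ^ Fintype.card κ) ^ T
          ≤ ((1 - a) ^ Fintype.card κ * (N : ℝ) ^ Fintype.card κ) ^ T := by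
            apply pow_le_pow_left₀
            · apply mul_nonneg
              · linarith
              · positivity
            · exact mul_le_mul_of_nonneg_right e4 (by positivity)
        _ = ((1 - a) * (N : ℝ)) ^ n := by
            rw [← mul_pow, ← pow_mul, hcardκ, mul_comm T]
        _ ≤ ((N : ℝ) - n) ^ n := by
            apply pow_le_pow_left₀ _ e3
            apply mul_nonneg _ hN0
            linarith
  -- conclusion
  set x : ℝ := ((univ.filter (fun σ : Equiv.Perm (Fin N) =>
      ∀ j, (fun k => σ (p (j, k))) ∉ Good)).card : ℝ) with hx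
  have h1' : x * (Fintype.card (Fin T × κ ↪ Fin N) : ℝ) = (Bad.card : ℝ) * N.factorial := by
    rw [hx]; exact_mod_cast h1
  have hx0 : 0 ≤ x := Nat.cast_nonneg _
  have hfac : (0 : ℝ) < N.factorial := by exact_mod_cast N.factorial_pos
  -- is N positive ?
  rcases Nat.eq_zero_or_pos (Fintype.card κ) with hk | hk
  · -- Good = everything (the unique function) or c N^0 = c ≤ card
    have hG' : Good.card ≠ 0 := by
      intro h0
      rw [h0, hk, pow_zero] at hG
      simp at hG
      linarith
    have hempty : IsEmpty κ := Fintype.card_eq_zero_iff.mp hk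
    obtain ⟨g, hg⟩ := Finset.card_pos.mp (Nat.pos_of_ne_zero hG')
    have hx' : x = 0 := by
      rw [hx]
      have : (univ.filter (fun σ : Equiv.Perm (Fin N) =>
          ∀ j, (fun k => σ (p (j, k))) ∉ Good)) = ∅ := by
        rw [Finset.filter_eq_empty_iff]
        intro σ _ h
        apply h ⟨0, hT⟩
        have heq : (fun k => σ (p (⟨0, hT⟩, k))) = g := by
          funext k
          exact (hempty.false k).elim
        rw [heq]
        exact hg
      rw [this]
      simp
    rw [hx']
    apply mul_nonneg
    · apply pow_nonneg; linarith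
    · exact hfac.le
  · have hNpos : 0 < N := by
      have : 0 < n := by
        rw [hn, Fintype.card_prod, Fintype.card_fin]
        positivity
      omega
    have hNr : (0 : ℝ) < (N : ℝ) ^ Fintype.card κ := by
      have : (0 : ℝ) < N := by exact_mod_cast hNpos
      positivity
    set y : ℝ := (N : ℝ) ^ Fintype.card κ with hy
    have hb : 0 < 1 - c / 2 := by linarith
    have h5 : x * ((1 - c / 2) * y) ^ T ≤ ((1 - c) * y) ^ T * N.factorial := by
      calc x * ((1 - c / 2) * y) ^ T ≤ x * (Fintype.card (Fin T × κ ↪ Fin N) : ℝ) :=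
            mul_le_mul_of_nonneg_left h4 hx0
        _ = (Bad.card : ℝ) * N.factorial := h1'
        _ ≤ _ := mul_le_mul_of_nonneg_right h3 hfac.le
    have h6 : ((1 - c) * y) ^ T ≤ ((1 - c / 2) * ((1 - c / 2) * y)) ^ T := by
      apply pow_le_pow_left₀
      · apply mul_nonneg _ hNr.le
        linarith
      · have : (1 - c) ≤ (1 - c / 2) * (1 - c / 2) := by nlinarith [sq_nonneg c]
        calc (1 - c) * y ≤ ((1 - c / 2) * (1 - c / 2)) * y :=
              mul_le_mul_of_nonneg_right this hNr.le
          _ = _ := by ring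
    have h7 : x * ((1 - c / 2) * y) ^ T ≤
        ((1 - c / 2) ^ T * N.factorial) * ((1 - c / 2) * y) ^ T := by
      calc x * ((1 - c / 2) * y) ^ T ≤ ((1 - c) * y) ^ T * N.factorial := h5
        _ ≤ ((1 - c / 2) * ((1 - c / 2) * y)) ^ T * N.factorial :=
            mul_le_mul_of_nonneg_right h6 hfac.le
        _ = _ := by rw [mul_pow]; ring
    exact le_of_mul_le_mul_right h7 (by positivity)

end Pool.Agent.Lib.MP_90b327_co.AR
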