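import Pool.Agent.Lib.MP_90b327_co.AR.Core
import Pool.Agent.Lib.MP_90b327_co.AR.REnding

/-!
From a density theorem for boxes in `[N₁]^d` to almost all conjugates of an idempotent map of `[N]`.
-/

set_option autoImplicit false
set_option linter.unusedSectionVars false

namespace Pool.Agent.Lib.MP_90b327_co.AR

open Finset

theorem rcore {d : ℕ} (i : Fin d) {N₁ N : ℕ} {J : Type} [Fintype J]
    (g0 G0 : J → Finset (Fin N₁)) (δ : ℝ) (hδ : 0 < δ)
    (hbb : ∀ S0 : Finset (Finset (Fin d → Fin N₁)), δ / 2 * 2 ^ (N₁ ^ d) < (S0.card : ℝ) →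
      ∃ j, ∃ X ∈ S0, Disjoint X (box i (G0 j) (g0 j)) ∧ X ∪ box i (G0 j) (g0 j) ∈ S0)
    (k l : J → ℕ) (e : ∀ j, Fin (k j) ⊕ Fin (k j) ⊕ Fin (l j) ↪ Fin N₁)
    (he1 : ∀ j, univ.image (fun a => e j (Sum.inl a)) ∪
      univ.image (fun b => e j (Sum.inr (Sum.inr b))) = g0 j)
    (he2 : ∀ j, univ.image (fun x => e j x) = G0 j)
    (hN : 2 * N₁ ^ 2 ≤ N) (S : Finset (Finset (Fin d → Fin N)))
    (hS : δ * 2 ^ (N ^ d) < (S.card : ℝ)) :
    ∃ j, (N : ℝ) ^ (k j + (k j + l j)) ≤ 2 * Fintype.card J *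
      ((univ.filter (fun v : Fin (k j) ⊕ Fin (k j) ⊕ Fin (l j) → Fin N => Function.Injective v ∧
        δ / 2 * 2 ^ (N ^ d) ≤ 2 ^ (N₁ ^ d) * Fintype.card J *
          ((hits S (box i (rgam v) (rgam' v))).card : ℝ))).card : ℝ) := by
  classical
  have hc1 : Fintype.card (Fin d → Fin N₁) = N₁ ^ d := by simp
  have hc : Fintype.card (Fin d → Fin N) = N ^ d := by simp
  obtain ⟨j, hj⟩ := push (fun j => Fin (k j) ⊕ Fin (k j) ⊕ Fin (l j)) e N
    (by rw [Fintype.card_fin]; exact hN)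
    (fun j v => δ / 2 * 2 ^ (N ^ d) ≤ 2 ^ (N₁ ^ d) * Fintype.card J *
          ((hits S (box i (rgam v) (rgam' v))).card : ℝ)) (by
      intro u
      obtain ⟨j, hj⟩ := window (cellMap i u u) S δ hδ (by rw [hc]; exact hS)
        (fun j => box i (G0 j) (g0 j)) (by rw [hc1]; exact hbb)
      refine ⟨j, ?_⟩
      rw [hc, hc1] at hj
      refine hj.trans (le_of_eq ?_)
      rw [map_box]
      have e1 : rgam (fun a => u (e j a)) = (G0 j).map u := by
        rw [rgam, ← he2 j, Finset.map_eq_image, Finset.image_image]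
        rfl
      have e2 : rgam' (fun a => u (e j a)) = (g0 j).map u := by
        rw [rgam', ← he1 j, Finset.map_eq_image, Finset.image_union,
          Finset.image_image, Finset.image_image]
        rfl
      rw [e1, e2, hits])
  refine ⟨j, ?_⟩
  have hcard : Fintype.card (Fin (k j) ⊕ Fin (k j) ⊕ Fin (l j)) = k j + (k j + l j) := by simp
  rw [hcard] at hj
  exact hj

theorem rfinal {d : ℕ} (i : Fin d) {N₁ N : ℕ} {J : Type} [Fintype J]
    (g0 G0 : J → Finset (Fin N₁)) (δ : ℝ) (hδ : 0 < δ)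
    (hbb : ∀ S0 : Finset (Finset (Fin d → Fin N₁)), δ / 2 * 2 ^ (N₁ ^ d) < (S0.card : ℝ) →
      ∃ j, ∃ X ∈ S0, Disjoint X (box i (G0 j) (g0 j)) ∧ X ∪ box i (G0 j) (g0 j) ∈ S0)
    (k l : J → ℕ) (e : ∀ j, Fin (k j) ⊕ Fin (k j) ⊕ Fin (l j) ↪ Fin N₁)
    (he1 : ∀ j, univ.image (fun a => e j (Sum.inl a)) ∪
      univ.image (fun b => e j (Sum.inr (Sum.inr b))) = g0 j)
    (he2 : ∀ j, univ.image (fun x => e j x) = G0 j)
    (hN : 2 * N₁ ^ 2 ≤ N) (S : Finset (Finset (Fin d → Fin N)))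
    (hS : δ * 2 ^ (N ^ d) < (S.card : ℝ))
    (L : ℕ) (hL : 1 ≤ L) (hkl : ∀ j, k j + l j ≤ L)
    (f : Fin N → Fin N) (A B m : ℕ) (hAN : A ≤ N) (hm : m ≤ A)
    (hm2 : (∀ j, l j = 0) ∨ m ≤ B)
    (hp : ∀ T k l : ℕ, T * k ≤ A → T * l ≤ B →
      ∃ p : Fin T × (Fin k ⊕ Fin k ⊕ Fin l) ↪ Fin N,
        (∀ j b, f (p (j, Sum.inl b)) = p (j, Sum.inl b)) ∧
        (∀ j b, f (p (j, Sum.inr (Sum.inl b))) = p (j, Sum.inl b)) ∧
        (∀ j b, f (p (j, Sum.inr (Sum.inr b))) = p (j, Sum.inr (Sum.inr b)))) :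
    ∃ j : J, ((univ.filter (fun σ : Equiv.Perm (Fin N) => ¬ ∃ γ : Finset (Fin N),
      (γ.image (fun x => σ (f (σ.symm x)))).card = k j + l j ∧
      γ.image (fun x => σ (f (σ.symm x))) ⊆ γ ∧
      (γ \ γ.image (fun x => σ (f (σ.symm x)))).card = k j ∧
      cst δ (N₁ ^ d) L (Fintype.card J) * 2 ^ (N ^ d) ≤
        ((hits S (box i γ (γ.image (fun x => σ (f (σ.symm x)))))).card : ℝ))).card : ℝ) ≤
      2 * Real.exp (-cst δ (N₁ ^ d) L (Fintype.card J) * m) * N.factorial := by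
  classical
  obtain ⟨j, hj⟩ := rcore i g0 G0 δ hδ hbb k l e he1 he2 hN S hS
  refine ⟨j, ?_⟩
  have hJ : 0 < Fintype.card J := Fintype.card_pos_iff.mpr ⟨j⟩
  have hJr : (0 : ℝ) < Fintype.card J := by exact_mod_cast hJ
  have hJ1 : (1 : ℝ) ≤ Fintype.card J := by exact_mod_cast hJ
  have hLr : (0 : ℝ) < L := by exact_mod_cast hL
  set c : ℝ := 1 / (2 * Fintype.card J) with hc
  have hc0 : 0 < c := by positivity
  have hc1 : c ≤ 1 := by
    rw [hc, div_le_one (by positivity)]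
    linarith
  have key := rending2 (N := N) (fun γ γ' => δ / 2 * 2 ^ (N ^ d) ≤ 2 ^ (N₁ ^ d) * Fintype.card J *
          ((hits S (box i γ γ')).card : ℝ)) (k j) (l j) L m hL (hkl j) c hc0 hc1 (by
      rw [hc, div_mul_eq_mul_div, one_mul, div_le_iff₀ (by positivity)]
      calc _ ≤ _ := hj
        _ = _ := by ring) f A B hAN hm (by
      rcases hm2 with h | h
      · exact Or.inl (h j)
      · exact Or.inr h) (fun T h1 h2 => hp T (k j) (l j) h1 h2)
  have hle : cst δ (N₁ ^ d) L (Fintype.card J) ≤ c ^ 2 / (16 * L ^ 2) := min_le_right _ _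
  have hle1 : cst δ (N₁ ^ d) L (Fintype.card J) ≤
      δ / (2 * 2 ^ (N₁ ^ d) * Fintype.card J) := min_le_left _ _
  have hmono : (univ.filter (fun σ : Equiv.Perm (Fin N) => ¬ ∃ γ : Finset (Fin N),
      (γ.image (fun x => σ (f (σ.symm x)))).card = k j + l j ∧
      γ.image (fun x => σ (f (σ.symm x))) ⊆ γ ∧
      (γ \ γ.image (fun x => σ (f (σ.symm x)))).card = k j ∧
      cst δ (N₁ ^ d) L (Fintype.card J) * 2 ^ (N ^ d) ≤
        ((hits S (box i γ (γ.image (fun x => σ (f (σ.symm x)))))).card : ℝ))) ⊆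
      (univ.filter (fun σ : Equiv.Perm (Fin N) => ¬ ∃ γ : Finset (Fin N),
      (γ.image (fun x => σ (f (σ.symm x)))).card = k j + l j ∧
      γ.image (fun x => σ (f (σ.symm x))) ⊆ γ ∧
      (γ \ γ.image (fun x => σ (f (σ.symm x)))).card = k j ∧
      δ / 2 * 2 ^ (N ^ d) ≤ 2 ^ (N₁ ^ d) * Fintype.card J *
        ((hits S (box i γ (γ.image (fun x => σ (f (σ.symm x)))))).card : ℝ))) := by
    intro σ hσ
    simp only [mem_filter, mem_univ, true_and] at hσ ⊢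
    rintro ⟨γ, h1, h2, h3, h4⟩
    refine hσ ⟨γ, h1, h2, h3, ?_⟩
    have h5 : δ / (2 * 2 ^ (N₁ ^ d) * Fintype.card J) * 2 ^ (N ^ d) ≤
        ((hits S (box i γ (γ.image (fun x => σ (f (σ.symm x)))))).card : ℝ) := by
      rw [div_mul_eq_mul_div, div_le_iff₀ (by positivity)]
      linarith
    refine le_trans (mul_le_mul_of_nonneg_right hle1 (by positivity)) h5
  have h6 : ((univ.filter (fun σ : Equiv.Perm (Fin N) => ¬ ∃ γ : Finset (Fin N),
      (γ.image (fun x => σ (f (σ.symm x)))).card = k j + l j ∧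
      γ.image (fun x => σ (f (σ.symm x))) ⊆ γ ∧
      (γ \ γ.image (fun x => σ (f (σ.symm x)))).card = k j ∧
      cst δ (N₁ ^ d) L (Fintype.card J) * 2 ^ (N ^ d) ≤
        ((hits S (box i γ (γ.image (fun x => σ (f (σ.symm x)))))).card : ℝ))).card : ℝ) ≤
      2 * Real.exp (-(c ^ 2 / (16 * L ^ 2)) * m) * N.factorial := by
    refine le_trans ?_ key
    exact_mod_cast Finset.card_le_card hmono
  refine h6.trans ?_
  have hfac : (0 : ℝ) ≤ N.factorial := Nat.cast_nonneg _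
  apply mul_le_mul_of_nonneg_right _ hfac
  apply mul_le_mul_of_nonneg_left _ (by norm_num)
  apply Real.exp_le_exp.mpr
  have hm0 : (0 : ℝ) ≤ m := Nat.cast_nonneg _
  nlinarith

end Pool.Agent.Lib.MP_90b327_co.AR
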