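import Mathlib

/-!
Varnavides' argument: a pattern theorem for dense families of subsets of a finite set of cells gives, for any
window in a larger set of cells, a positive proportion of occurrences of one of the patterns.
-/

set_option autoImplicit false
set_option linter.unusedSectionVars false

namespace Pool.Agent.Lib.MP_90b327_co.AR

open Finset

variable {α β : Type} [Fintype α] [DecidableEq α] [Fintype β] [DecidableEq β]

/-- overwrite the window `w` of `A` by the pattern `X` -/
def ov (w : α ↪ β) (A : Finset β) (X : Finset α) : Finset β :=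
  (A \ univ.map w) ∪ X.map w

/-- the content of the window -/
def ct (w : α ↪ β) (A : Finset β) : Finset α := univ.filter (fun a => w a ∈ A)

theorem ct_ov (w : α ↪ β) (A : Finset β) (X : Finset α) : ct w (ov w A X) = X := by
  ext a
  simp [ct, ov]

theorem ov_ov (w : α ↪ β) (A : Finset β) (X Y : Finset α) : ov w (ov w A X) Y = ov w A Y := by
  ext b
  simp only [ov, mem_union, mem_sdiff, mem_map, mem_univ, true_and]
  constructor
  · rintro (⟨h1 | ⟨a, ha, rfl⟩, h2⟩ | h)
    · exact Or.inl h1
    · exact absurd ⟨a, rfl⟩ h2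
    · exact Or.inr h
  · rintro (h | h)
    · exact Or.inl ⟨Or.inl h, h.2⟩
    · exact Or.inr h

theorem ov_ct (w : α ↪ β) (A : Finset β) : ov w A (ct w A) = A := by
  ext b
  simp only [ov, ct, mem_union, mem_sdiff, mem_map, mem_univ, true_and, mem_filter]
  constructor
  · rintro (h | ⟨a, ha, rfl⟩)
    · exact h.1
    · exact ha
  · intro h
    by_cases hb : ∃ a, w a = b
    · obtain ⟨a, rfl⟩ := hb
      exact Or.inr ⟨a, h, rfl⟩
    · exact Or.inl ⟨h, hb⟩

theorem disj_ov (w : α ↪ β) (A : Finset β) (X B : Finset α) (h : Disjoint X B) :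
    Disjoint (ov w A X) (B.map w) := by
  rw [Finset.disjoint_left]
  intro b hb hb'
  simp only [mem_map] at hb'
  obtain ⟨a, ha, rfl⟩ := hb'
  have h1 : a ∈ ct w (ov w A X) := by simp [ct, hb]
  rw [ct_ov] at h1
  exact Finset.disjoint_left.mp h h1 ha

theorem union_ov (w : α ↪ β) (A : Finset β) (X B : Finset α) :
    ov w A X ∪ B.map w = ov w A (X ∪ B) := by
  simp only [ov, map_union, union_assoc]

/-- the exchange involution -/
def exch (w : α ↪ β) : Finset β × Finset α ≃ Finset β × Finset α where
  toFun p := (ov w p.1 p.2, ct w p.1)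
  invFun p := (ov w p.1 p.2, ct w p.1)
  left_inv p := by
    rcases p with ⟨A, X⟩
    simp only [ov_ov, ov_ct, ct_ov]
  right_inv p := by
    rcases p with ⟨A, X⟩
    simp only [ov_ov, ov_ct, ct_ov]

theorem card_pairs (w : α ↪ β) (S : Finset (Finset β)) :
    ∑ A : Finset β, (univ.filter (fun X : Finset α => ov w A X ∈ S)).card =
      S.card * 2 ^ Fintype.card α := by
  have h1 : (univ.filter (fun p : Finset β × Finset α => ov w p.1 p.2 ∈ S)).card =
      (univ.filter (fun p : Finset β × Finset α => p.1 ∈ S)).card := by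
    apply Finset.card_bij (fun p _ => exch w p)
    · intro p hp
      simp only [mem_filter, mem_univ, true_and] at hp ⊢
      exact hp
    · intro p _ q _ h
      exact (exch w).injective h
    · intro p hp
      refine ⟨(exch w).symm p, ?_, (exch w).apply_symm_apply p⟩
      simp only [mem_filter, mem_univ, true_and] at hp ⊢
      show ov w (ov w p.1 p.2) (ct w p.1) ∈ S
      rw [ov_ov, ov_ct]
      exact hp
  have h2 : (univ.filter (fun p : Finset β × Finset α => p.1 ∈ S)) = S ×ˢ univ := by
    ext p
    simp
  have h3 : (univ.filter (fun p : Finset β × Finset α => ov w p.1 p.2 ∈ S)).card =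
      ∑ A : Finset β, (univ.filter (fun X : Finset α => ov w A X ∈ S)).card := by
    rw [Finset.card_filter, Fintype.sum_prod_type]
    refine Finset.sum_congr rfl fun A _ => ?_
    rw [Finset.card_filter]
  rw [← h3, h1, h2, card_product, Finset.card_univ, Fintype.card_finset]

/-- Varnavides' argument in a window `w`. -/
theorem window (w : α ↪ β) (S : Finset (Finset β)) (δ : ℝ) (hδ : 0 < δ)
    (hS : δ * 2 ^ Fintype.card β < (S.card : ℝ)) {J : Type} [Fintype J] (B : J → Finset α)
    (h0 : ∀ S0 : Finset (Finset α), δ / 2 * 2 ^ Fintype.card α < (S0.card : ℝ) →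
      ∃ j, ∃ X ∈ S0, Disjoint X (B j) ∧ X ∪ B j ∈ S0) :
    ∃ j, δ / 2 * 2 ^ Fintype.card β ≤ 2 ^ Fintype.card α * Fintype.card J *
      ((S.filter (fun A => Disjoint A ((B j).map w) ∧ A ∪ (B j).map w ∈ S)).card : ℝ) := by
  classical
  by_contra hcon
  push Not at hcon
  set SA : Finset β → Finset (Finset α) := fun A => univ.filter (fun X => ov w A X ∈ S) with hSA
  set G : Finset (Finset β) := univ.filter (fun A => δ / 2 * 2 ^ Fintype.card α < ((SA A).card : ℝ))
    with hG
  have ha : (0 : ℝ) < 2 ^ Fintype.card α := by positivity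
  have hb : (0 : ℝ) < 2 ^ Fintype.card β := by positivity
  -- many dense windows
  have h1 : δ / 2 * 2 ^ Fintype.card β < (G.card : ℝ) := by
    have e1 : (∑ A : Finset β, ((SA A).card : ℝ)) = (S.card : ℝ) * 2 ^ Fintype.card α := by
      have := card_pairs w S
      exact_mod_cast this
    have e2 : (∑ A : Finset β, ((SA A).card : ℝ)) ≤
        (G.card : ℝ) * 2 ^ Fintype.card α + 2 ^ Fintype.card β * (δ / 2 * 2 ^ Fintype.card α) := by
      have e3 : ∀ A : Finset β, ((SA A).card : ℝ) ≤
          (if A ∈ G then (2 : ℝ) ^ Fintype.card α else 0) + δ / 2 * 2 ^ Fintype.card α := by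
        intro A
        by_cases hA : A ∈ G
        · rw [if_pos hA]
          have : (SA A).card ≤ 2 ^ Fintype.card α := by
            refine (Finset.card_le_univ _).trans ?_
            rw [Fintype.card_finset]
          have : ((SA A).card : ℝ) ≤ 2 ^ Fintype.card α := by exact_mod_cast this
          have : 0 ≤ δ / 2 * 2 ^ Fintype.card α := by positivity
          linarith
        · rw [if_neg hA]
          simp only [hG, mem_filter, mem_univ, true_and, not_lt] at hA
          linarith
      calc (∑ A : Finset β, ((SA A).card : ℝ)) ≤ ∑ A : Finset β,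
            ((if A ∈ G then (2 : ℝ) ^ Fintype.card α else 0) + δ / 2 * 2 ^ Fintype.card α) :=
            Finset.sum_le_sum fun A _ => e3 A
        _ = _ := by
            rw [Finset.sum_add_distrib, Finset.sum_ite_mem, Finset.univ_inter, Finset.sum_const,
              Finset.sum_const, Finset.card_univ, Fintype.card_finset, nsmul_eq_mul, nsmul_eq_mul]
            push_cast
            ring
    rw [e1] at e2
    have e4 : δ * 2 ^ Fintype.card β * 2 ^ Fintype.card α <
        (S.card : ℝ) * 2 ^ Fintype.card α := by
      exact mul_lt_mul_of_pos_right hS ha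
    have e5 : δ / 2 * 2 ^ Fintype.card β * 2 ^ Fintype.card α <
        (G.card : ℝ) * 2 ^ Fintype.card α := by nlinarith
    exact lt_of_mul_lt_mul_right e5 ha.le
  -- choose the pairs
  have h2 : ∀ A ∈ G, ∃ j, ∃ X ∈ SA A, Disjoint X (B j) ∧ X ∪ B j ∈ SA A := by
    intro A hA
    refine h0 (SA A) ?_
    simpa [hG] using hA
  have hGp : 0 < G.card := by
    have : (0 : ℝ) < G.card := lt_trans (by positivity) h1
    exact_mod_cast this
  obtain ⟨A0, hA0⟩ := Finset.card_pos.mp hGp
  have hJne : Nonempty J := ⟨(h2 A0 hA0).choose⟩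
  choose! jj hj using h2
  choose! XX hX using hj
  set F : J → Finset (Finset β) := fun j =>
    S.filter (fun A => Disjoint A ((B j).map w) ∧ A ∪ (B j).map w ∈ S) with hF
  have h3 : G.card ≤ ((univ : Finset J).sigma F ×ˢ (univ : Finset (Finset α))).card := by
    apply Finset.card_le_card_of_injOn
      (fun A => ((⟨jj A, ov w A (XX A)⟩ : (_ : J) × Finset β), ct w A))
    · intro A hA
      have hA' : A ∈ G := hA
      obtain ⟨hx1, hx2, hx3⟩ := hX A hA'
      simp only [hSA, mem_filter, mem_univ, true_and] at hx1 hx3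
      simp only [coe_product, coe_univ, Set.mem_prod, Set.mem_univ, and_true, mem_coe, mem_sigma,
        mem_univ, true_and, hF, mem_filter]
      refine ⟨hx1, disj_ov w A _ _ hx2, ?_⟩
      rw [union_ov]
      exact hx3
    · intro A _ A' _ h
      simp only [Prod.mk.injEq, Sigma.mk.injEq, heq_eq_eq] at h
      obtain ⟨⟨-, h4⟩, h5⟩ := h
      have h6 : ov w (ov w A (XX A)) (ct w A) = A := by rw [ov_ov, ov_ct]
      have h7 : ov w (ov w A' (XX A')) (ct w A') = A' := by rw [ov_ov, ov_ct]
      rw [← h6, ← h7, h4, h5]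
  have h4 : ((G.card : ℕ) : ℝ) ≤ (∑ j, ((F j).card : ℝ)) * 2 ^ Fintype.card α := by
    rw [card_product, card_sigma, Finset.card_univ, Fintype.card_finset] at h3
    exact_mod_cast h3
  have h5 : 0 < Fintype.card J := Fintype.card_pos_iff.mpr hJne
  have hne : (univ : Finset J).Nonempty := by
    rw [← Finset.card_pos, Finset.card_univ]
    exact h5
  have h6 : ∑ j, ((F j).card : ℝ) * (2 ^ Fintype.card α * Fintype.card J) <
      ∑ j : J, δ / 2 * 2 ^ Fintype.card β := by
    apply Finset.sum_lt_sum_of_nonempty hne
    intro j _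
    have := hcon j
    calc _ = 2 ^ Fintype.card α * Fintype.card J * ((F j).card : ℝ) := by ring
      _ < _ := this
  rw [← Finset.sum_mul, Finset.sum_const, Finset.card_univ, nsmul_eq_mul] at h6
  have hJ : (0 : ℝ) < Fintype.card J := by exact_mod_cast h5
  have h7 : (∑ j, ((F j).card : ℝ)) * 2 ^ Fintype.card α * Fintype.card J <
      (δ / 2 * 2 ^ Fintype.card β) * Fintype.card J := by linarith [h6]
  have h8 := lt_of_mul_lt_mul_right h7 hJ.le
  linarith

end Pool.Agent.Lib.MP_90b327_co.AR
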